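import Pool.Agent.P.MP_7a6434d8_pr.QL.Sph.Defs

/-! Block G6: jointly measurable versions. -/

open MeasureTheory ProbabilityTheory Set Filter Topology Metric
open scoped ENNReal

namespace Pool.Agent.QL

open Pool.Agent.LGD

/-- Output of block G6 with jointly measurable versions. -/
structure SphOut2 {Ω : Type} [MeasurableSpace Ω] (P : Measure Ω) (d : Ω → Sph → Sph → ℝ)
    (μ : Ω → Measure ℂ) extends SphOut P d μ where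
  dJ : Ω → ℂ → ℂ → ℝ≥0∞
  dJ_meas : Measurable fun p : Ω × ℂ × ℂ => dJ p.1 p.2.1 p.2.2
  dJ_eq : ∀ᵐ ω ∂P, ∀ x y : ℂ, dJ ω x y = ENNReal.ofReal (d ω x y)
  jt : Set ℂ → Dist → ℂ → ℂ → ℝ≥0∞
  je : Set ℂ → Dist → ℂ → ℝ≥0∞
  jk : Set ℂ → Dist → Measure ℂ
  jt_meas : ∀ U, Measurable[(fieldSigma id U).prod inferInstance]
    fun p : Dist × ℂ × ℂ => jt U p.1 p.2.1 p.2.2
  je_meas : ∀ U, Measurable[(fieldSigma id U).prod inferInstance]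
    fun p : Dist × ℂ => je U p.1 p.2
  jk_prob : ∀ U k, IsProbabilityMeasure (jk U k)
  jk_meas : ∀ U, Measurable[fieldSigma id U] (jk U)
  je_eq : ∀ F : Fr, F.Adm → ∀ U, IsOpen U → U ⊆ U0 → ∀ᵐ ω ∂P, ∀ c : ℝ, ∀ x ∈ U,
    je U (lev (kt F ω) c) x = ex (gam / 4 * c) * dOut (d ω) (F.map x) (F.map '' U)
  jt_eq : ∀ F : Fr, F.Adm → ∀ U, IsOpen U → U ⊆ U0 → ∀ᵐ ω ∂P, ∀ c : ℝ, ∀ x ∈ U, ∀ y,
    jt U (lev (kt F ω) c) x y = ex (gam / 4 * c) *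
      min (ENNReal.ofReal (d ω (F.map x) (F.map y))) (dOut (d ω) (F.map x) (F.map '' U))
  jk_eq : ∀ᵐ ω ∂P, ∀ F : Fr, F.Adm → ∀ U, IsOpen U → U.Nonempty → U ⊆ U0 → ∀ c : ℝ,
    jk U (lev (kt F ω) c) = ProbabilityTheory.cond ((μ ω).map F.inv) U

/-- Statement of block G6, with the jointly measurable versions. -/
def SphStmt2 : Prop :=
  ∀ (c₀ : ℝ) (_ : 0 < c₀) (D : Dist → ℂ → ℂ → ℝ)
    (_ : IsLQGMetric (√(8 / 3)) (√(8 / 3) / 4) D) (θ : Test) (Θ : ℝ → ℂ → Test)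
    (_ : IsMollifier θ Θ) (Ω : Type) [MeasurableSpace Ω] (P₀ P : Measure Ω)
    [IsProbabilityMeasure P₀] [IsProbabilityMeasure P] (_ : P ≪ P₀) (_ : P₀ ≪ P)
    (h : Ω → Dist) (_ : IsGFF P₀ h) (μ₀ : Ω → Measure ℂ)
    (_ : IsLQGMeasure P₀ h (√(8 / 3)) c₀ Θ μ₀) (f : ℂ → ℝ)
    (_ : ContDiffOn ℝ (⊤ : ℕ∞) f {0, 1}ᶜ) (d : Ω → Sph → Sph → ℝ)
    (_ : ∀ x y, Measurable fun ω => d ω x y) (μ : Ω → Measure ℂ)
    (_ : ∀ᵐ ω ∂P, IsSphere (√(8 / 3)) D f (h ω) (μ₀ ω) (d ω) (μ ω)),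
    Nonempty (SphOut2 P d μ)

end Pool.Agent.QL
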