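import Pool.Agent.P.MP_7a6434d8_pr.QL.Sys
import Pool.Agent.P.MP_7a6434d8_pr.QL.Stmt

/-! Block G6: the sphere seen in rational frames. -/

open MeasureTheory ProbabilityTheory Set Filter Topology Metric
open scoped ENNReal

namespace Pool.Agent.QL

open Pool.Agent.LGD

/-- Frames whose closed reference disc avoids the marked points. -/
def Fr.Adm (F : Fr) : Prop :=
  (0 : ℂ) ∉ F.map '' closedBall 0 4 ∧ (1 : ℂ) ∉ F.map '' closedBall 0 4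

/-- Distance from `x` to the complement of `V` in the sphere. -/
noncomputable def dOut (d : Sph → Sph → ℝ) (x : ℂ) (V : Set ℂ) : ℝ≥0∞ :=
  ⨅ (y : Sph) (_ : y ∉ (fun z : ℂ => (z : Sph)) '' V), ENNReal.ofReal (d x y)

/-- Output of block G6. -/
structure SphOut {Ω : Type} [MeasurableSpace Ω] (P : Measure Ω) (d : Ω → Sph → Sph → ℝ)
    (μ : Ω → Measure ℂ) where
  ν : Measure Dist
  canon : IsCanon ν
  geoM : ∀ᵐ ω ∂P, IsGeoMetric (d ω)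
  prob : ∀ᵐ ω ∂P, IsProbabilityMeasure (μ ω)
  κ : Kernel Ω ℂ
  markov : IsMarkovKernel κ
  κ_eq : ∀ᵐ ω ∂P, κ ω = μ ω
  supp : ∀ᵐ ω ∂P, ∀ V : Set ℂ, IsOpen V → V.Nonempty → 0 < μ ω V
  null : ∀ S : Set ℂ, volume S = 0 → ∀ᵐ ω ∂P, μ ω S = 0
  zt : Set ℂ → ℂ → ℂ → Dist → ℝ≥0∞
  ze : Set ℂ → ℂ → Dist → ℝ≥0∞
  zm : Set ℂ → Dist → ℝ≥0∞
  zt_loc : ∀ U x y, Measurable[fieldSigma id U] (zt U x y)
  ze_loc : ∀ U x, Measurable[fieldSigma id U] (ze U x)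
  zm_loc : ∀ R, Measurable[fieldSigma id R] (zm R)
  kt : Fr → Ω → Dist
  kt_meas : ∀ F, Measurable (kt F)
  eq_ac : ∀ F : Fr, F.Adm →
    (P.prod (gaussianReal 0 1)).map (fun p => lev (kt F p.1) p.2) ≪ nuh ν
  eq_ac' : ∀ F : Fr, F.Adm →
    nuh ν ≪ (P.prod (gaussianReal 0 1)).map (fun p => lev (kt F p.1) p.2)
  ac : ∀ F : Fr, F.Adm → ∀ (c : ℝ) (N : Set Dist), MeasurableSet[fieldSigma id U0] N →
    nuh ν N = 0 → ∀ᵐ ω ∂P, lev (kt F ω) c ∉ N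
  geo_e : ∀ F : Fr, F.Adm → ∀ U, IsOpen U → U ⊆ U0 → ∀ x ∈ U, ∀ᵐ ω ∂P, ∀ c : ℝ,
    ze U x (lev (kt F ω) c) = ex (gam / 4 * c) * dOut (d ω) (F.map x) (F.map '' U)
  geo_t : ∀ F : Fr, F.Adm → ∀ U, IsOpen U → U ⊆ U0 → ∀ x ∈ U, ∀ y, ∀ᵐ ω ∂P, ∀ c : ℝ,
    zt U x y (lev (kt F ω) c) = ex (gam / 4 * c) *
      min (ENNReal.ofReal (d ω (F.map x) (F.map y))) (dOut (d ω) (F.map x) (F.map '' U))
  geo_m : ∀ᵐ ω ∂P, ∀ F : Fr, F.Adm → ∀ R, IsOpen R → R ⊆ U0 → ∀ c : ℝ,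
    zm R (lev (kt F ω) c) = ex (gam * c) * μ ω (F.map '' R)
  comp : ∀ F G H : Fr, F.Adm → MapsTo G.map U0 U0 → (∀ x, H.map x = F.map (G.map x)) →
    H.Adm ∧ ∀ ω, ∀ φ : Test, tsupport φ ⊆ U0 → absF G (kt F ω) φ = kt H ω φ

/-- Statement of block G6. -/
def SphStmt : Prop :=
  ∀ (c₀ : ℝ) (_ : 0 < c₀) (D : Dist → ℂ → ℂ → ℝ)
    (_ : IsLQGMetric (√(8 / 3)) (√(8 / 3) / 4) D) (θ : Test) (Θ : ℝ → ℂ → Test)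
    (_ : IsMollifier θ Θ) (Ω : Type) [MeasurableSpace Ω] (P₀ P : Measure Ω)
    [IsProbabilityMeasure P₀] [IsProbabilityMeasure P] (_ : P ≪ P₀) (_ : P₀ ≪ P)
    (h : Ω → Dist) (_ : IsGFF P₀ h) (μ₀ : Ω → Measure ℂ)
    (_ : IsLQGMeasure P₀ h (√(8 / 3)) c₀ Θ μ₀) (f : ℂ → ℝ)
    (_ : ContDiffOn ℝ (⊤ : ℕ∞) f {0, 1}ᶜ) (d : Ω → Sph → Sph → ℝ) (μ : Ω → Measure ℂ)
    (_ : ∀ᵐ ω ∂P, IsSphere (√(8 / 3)) D f (h ω) (μ₀ ω) (d ω) (μ ω)),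
    Nonempty (SphOut P d μ)

end Pool.Agent.QL
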