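import Pool.Agent.P.MP_7a6434d8_pr.QL.Sph.Norm
import Pool.Agent.P.MP_7a6434d8_pr.QL.Sph.Defs2

/-! Block G6: the sphere data. -/

open MeasureTheory ProbabilityTheory Set Filter Topology Metric
open scoped ENNReal

namespace Pool.Agent.QL

open Pool.Agent.LGD Sp

theorem Sp.cond_smul (m : Measure ℂ) (U : Set ℂ) (x : ℝ) :
    ProbabilityTheory.cond (ex x • m) U = ProbabilityTheory.cond m U := by
  unfold ProbabilityTheory.cond
  rw [Measure.restrict_smul, smul_smul, Measure.smul_apply, smul_eq_mul,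
    ENNReal.mul_inv (Or.inl (len_ex_ne_zero x)) (Or.inl (len_ex_ne_top x)), mul_right_comm,
    ENNReal.inv_mul_cancel (len_ex_ne_zero x) (len_ex_ne_top x), one_mul]

theorem Sp.compl_ne {U : Set ℂ} (h : U ⊆ U0) : Uᶜ.Nonempty :=
  ⟨4, fun h' => by simpa [U0] using h h'⟩

theorem sphOut2 : SphStmt2 := by
  intro c₀ hc D hD θ Θ hθ Ω _ P₀ P _ _ hP hP' h hh μ₀ hμ₀ f hf d hdm μ hS
  classical
  change IsLQGMetric gam (gam / 4) D at hD
  change IsLQGMeasure P₀ h gam c₀ Θ μ₀ at hμ₀
  change ∀ᵐ ω ∂P, IsSphere gam D f (h ω) (μ₀ ω) (d ω) (μ ω) at hS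
  have hν := isCanon_of_gff hh
  set ν := P₀.map (fun ω => norm0 (h ω))
  have hX : Eqv P ν h :=
    Eqv.congr (P := P₀) ⟨measurable_toDist hh.meas, by rfl, by rfl⟩ hP hP'
  obtain ⟨R, hR⟩ := Mass.exists_bump hθ
  obtain ⟨e, he, he0, hv⟩ := exists_vg hc hθ hμ₀
  replace hv := hv.filter_mono hP.ae_le
  have hfc := hf.continuousOn
  have hfm : Measurable f := hfc.measurable_of_countable_compl (by simp)
  have hnull : ∀ S : Set ℂ, volume S = 0 → ∀ᵐ ω ∂P, μ₀ ω S = 0 := fun S hS =>
    null_of_vg (γ := gam) hν hX hc hR he he0 (hv.mono fun ω h => by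
      simpa only [norm_rotF_a, one_mul] using h (rotF 0)) hS
  have hz := (measurable_cz hc hR he he0 hfc).comp hX.meas
  have hG' : ∀ᵐ ω ∂P, Good c₀ θ e f (h ω) (μ₀ ω) (μ ω) (cz c₀ θ e f (h ω)) ∧
      ∀ (U : Set ℂ) (g : ℂ → ℝ) (k : Dist), IsOpen U → Continuous g →
        (∀ z ∈ U, z ≠ 0 ∧ z ≠ 1 ∧ g z = f z - cz c₀ θ e f (h ω)) → IsAdd (h ω) g k →
        ∀ x y, internal (fun a b : ℂ => d ω a b) x y U = internal (D k) x y U := by
    filter_upwards [hS, hv, hnull {0, 1} ((toFinite _).measure_zero _),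
      hP.ae_le (supp_of_lqg (by have := gam_pos; positivity) hc hD hθ hh hμ₀)]
      with ω ⟨_, h1, c, h2, h3⟩ h4 h5 h6
    have h7 : Good c₀ θ e f (h ω) (μ₀ ω) (μ ω) c := ⟨h4, h5, h1, h2, fun V hV hne h0 =>
      h6 V hV hne (withDensity_absolutelyContinuous' (CMAux.measurable_ex.comp
        ((hfm.sub_const c).const_mul gam)).aemeasurable (ae_of_all _ fun _ => len_ex_ne_zero _)
        (h2 ▸ h0))⟩
    rw [h7.cz_eq hc hR he he0 hfc]
    exact ⟨h7, h3⟩
  have hG := hG'.mono fun _ h => h.1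
  have hd : ∀ᵐ ω ∂P, IsGeoMetric (d ω) := hS.mono fun _ h => h.1
  obtain ⟨κ, hκ, hκ'⟩ := exists_kernel hX.meas hc hR he he0 hfc hG
  have hcut : ∀ F : Fr, ∃ g b : Test, F.Adm → (∀ x ∈ U0, g (F.map x) = f (F.map x)) ∧
      (∀ x ∈ U0, b (F.map x) = 1) ∧ (∀ x, 0 ≤ b x) ∧ ∀ x, b x ≤ 1 := fun F => by
    by_cases hF : F.Adm
    · simpa only [hF, true_imp_iff] using exists_cut hf F hF
    · exact ⟨0, 0, fun h => absurd h hF⟩
  choose g b hg using hcut
  set kt : Fr → Ω → Dist := fun F ω => absF F (lev (Sm (g F) (h ω)) (-cz c₀ θ e f (h ω)))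
    with hkt
  have hY := fun F => (hX.sm hν (g F)).lev hz.neg
  have hK : ∀ F, Eqv P ν (kt F) := fun F => (hY F).absF hν F
  have hint : ∀ F : Fr, F.Adm → ∀ᵐ ω ∂P, ∀ U, IsOpen U → U ⊆ U0 → ∀ x y c,
      internal (D (lev (kt F ω) c)) x y U = ex (gam / 4 * c) *
        internal (fun a b : ℂ => d ω a b) (F.map x) (F.map y) (F.map '' U) := fun F hF => by
    filter_upwards [(hY F).ae (int_frame hν hD F), hG'] with ω h1 h2 U hU hU0 x y c
    have hgc : Continuous fun x => g F x - cz c₀ θ e f (h ω) :=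
      (g F).continuous.sub continuous_const
    refine (h1 _ rfl c x y U).trans ?_
    rw [h2.2 (F.map '' U) _ (lev (Sm (g F) (h ω)) (-cz c₀ θ e f (h ω)))
      (F.image_eq U ▸ hU.preimage F.continuous_inv) hgc ?_ fun φ => ?_]
    · rfl
    · rintro _ ⟨w, hw, rfl⟩
      have h3 : F.map w ∈ F.map '' closedBall 0 4 :=
        mem_image_of_mem _ (ball_subset_closedBall (hU0 hw))
      exact ⟨fun h => hF.1 (h ▸ h3), fun h => hF.2 (h ▸ h3), by rw [(hg F hF).1 w (hU0 hw)]⟩
    · simp only [sub_mul]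
      rw [lev_apply, Sm_apply (g F).continuous, integral_sub (Test.integrable_mul _
        (g F).continuous) ((Test.integrable φ).const_mul _), integral_const_mul]
      ring
  have hfb : ∀ (U : Set ℂ) (x y : ℂ), ∃ Fb : Dist → ℝ≥0∞, Measurable[fieldSigma id U] Fb ∧
      ∀ F : Fr, F.Adm → IsOpen U → U ⊆ U0 → ∀ᵐ ω ∂P, ∀ c, Fb (lev (kt F ω) c) = ex (gam / 4 * c) *
        internal (fun a b : ℂ => d ω a b) (F.map x) (F.map y) (F.map '' U) := fun U x y => by
    by_cases hU : IsOpen U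
    · obtain ⟨Fb, h1, p, h2, h3⟩ := exists_fbar hν hD hU x y
      refine ⟨Fb, h1, fun F hF _ hU0 => ?_⟩
      filter_upwards [(hK F).ae_lev hν h2, hint F hF] with ω h4 h5
      exact h3 _ _ h4 (h5 U hU hU0 x y)
    · exact ⟨fun _ => 0, measurable_const, fun _ _ h => absurd h hU⟩
  choose Fb hFb hFb' using hfb
  set ze : Set ℂ → ℂ → Dist → ℝ≥0∞ := fun U x k =>
    ⨆ n, ⨅ (q : ℚ × ℚ) (_ : qc q ∉ exh U n), Fb U x (qc q) k with hze
  have hzel : ∀ U x, Measurable[fieldSigma id U] (ze U x) := fun U x =>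
    Measurable.iSup fun n => Measurable.iInf fun q => Measurable.iInf_Prop _ (hFb U x _)
  have hztl : ∀ U x y, Measurable[fieldSigma id U] fun k => min (Fb U x y k) (ze U x k) :=
    fun U x y => (hFb U x y).min (hzel U x)
  have ge : ∀ F : Fr, F.Adm → ∀ U, IsOpen U → U ⊆ U0 → ∀ x ∈ U, ∀ᵐ ω ∂P, ∀ c : ℝ,
      ze U x (lev (kt F ω) c) = ex (gam / 4 * c) * dOut (d ω) (F.map x) (F.map '' U) := by
    intro F hF U hU hU0 x hx
    filter_upwards [ae_all_iff.2 fun q => hFb' U x (qc q) F hF hU hU0, hd] with ω h1 h2 c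
    simp only [hze, h1, h2.dOut_frame F hU hU0 hx, ENNReal.mul_iSup,
      ENNReal.mul_iInf_of_ne (len_ex_ne_zero _) (len_ex_ne_top _)]
  have gt : ∀ F : Fr, F.Adm → ∀ U, IsOpen U → U ⊆ U0 → ∀ x ∈ U, ∀ y, ∀ᵐ ω ∂P, ∀ c : ℝ,
      min (Fb U x y (lev (kt F ω) c)) (ze U x (lev (kt F ω) c)) = ex (gam / 4 * c) *
        min (ENNReal.ofReal (d ω (F.map x) (F.map y))) (dOut (d ω) (F.map x) (F.map '' U)) := by
    intro F hF U hU hU0 x hx y
    filter_upwards [hFb' U x y F hF hU hU0, ge F hF U hU hU0 x hx, hd] with ω h1 h2 h3 c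
    rw [h1, h2, ← mul_min, h3.min_internal]
  obtain ⟨v, hv1⟩ := TopologicalSpace.exists_dense_seq ℂ
  obtain ⟨w, hw1⟩ := TopologicalSpace.exists_dense_seq (ℂ × ℂ)
  obtain ⟨dJ, hdJ, hdJ'⟩ := exists_joint inferInstance w hw1
    (fun p ω => ENNReal.ofReal (d ω p.1 p.2)) fun p => (hdm _ _).ennreal_ofReal
  choose je hje hje' using fun U => exists_joint (fieldSigma id U) v hv1 (ze U) (hzel U)
  choose jt hjt hjt' using fun U => exists_joint (fieldSigma id U) w hw1
    (fun p k => min (Fb U p.1 p.2 k) (ze U p.1 k)) fun p => hztl U p.1 p.2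
  have hjk0 : ∀ U : Set ℂ, ∃ jk : Dist → Measure ℂ, (∀ k, IsProbabilityMeasure (jk k)) ∧
      Measurable[fieldSigma id U] jk ∧ (IsOpen U → U ⊆ U0 → ∀ k m, Vg gam c₀ θ e k m → m U ≠ 0 →
        m U ≠ ⊤ → jk k = ProbabilityTheory.cond m U) := fun U => by
    by_cases hU : IsOpen U ∧ U ⊆ U0
    · obtain ⟨jk, h1, h2, h3⟩ := exists_jk (γ := gam) hc hR he he0 hU.1 (compl_ne hU.2)
      exact ⟨jk, h1, h2, fun _ _ => h3⟩
    · exact ⟨fun _ => Measure.dirac 0, fun _ => inferInstance, measurable_const,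
        fun h1 h2 => absurd ⟨h1, h2⟩ hU⟩
  choose jk hjk1 hjk2 hjk3 using hjk0
  have hdc : ∀ {ω}, IsGeoMetric (d ω) → ∀ {s t : ℂ × ℂ → ℂ}, Continuous s → Continuous t →
      Continuous fun p => ENNReal.ofReal (d ω (s p) (t p)) := fun h _ _ hs ht =>
    ENNReal.continuous_ofReal.comp (h.cont.comp
      ((OnePoint.continuous_coe.comp hs).prodMk (OnePoint.continuous_coe.comp ht)))
  refine ⟨{ ν := ν
            canon := hν
            geoM := hd
            prob := hG.mono fun _ h => h.prob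
            κ := κ
            markov := hκ
            κ_eq := hκ'
            supp := hG.mono fun _ h V hV hne => pos_iff_ne_zero.2 (h.supp V hV hne)
            null := fun S hS => ?_
            zt := fun U x y k => min (Fb U x y k) (ze U x k)
            ze := ze
            zm := zz gam c₀ θ e fun _ => 1
            zt_loc := hztl
            ze_loc := hzel
            zm_loc := zz_loc1 hc hR he he0
            kt := kt
            kt_meas := fun F => (hK F).meas
            eq_ac := fun F _ => (hK F).eq_ac hν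
            eq_ac' := fun F _ => (hK F).eq_ac' hν
            ac := fun F hF c N hN hN0 => ac_fixed hν hX hc hR he he0 hfc hG F (g F) (b F)
              (hg F hF).2.1 (hg F hF).2.2.1 (hg F hF).2.2.2 c hN hN0
            geo_e := ge
            geo_t := gt
            geo_m := hG.mono fun ω h F hF V hV hV0 c => ?_
            comp := fun F G H hF hGm hH => ?_
            dJ := fun ω x y => dJ ω (x, y)
            dJ_meas := hdJ
            dJ_eq := hd.mono fun ω h x y => hdJ' ω _ univ isOpen_univ (fun _ _ => rfl) (x, y)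
              trivial (hdc h continuous_fst continuous_snd).continuousAt
            jt := fun U k x y => jt U k (x, y)
            je := je
            jk := jk
            jt_meas := hjt
            je_meas := hje
            jk_prob := hjk1
            jk_meas := hjk2
            je_eq := fun F hF U hU hU0 => ?_
            jt_eq := fun F hF U hU hU0 => ?_
            jk_eq := hG.mono fun ω h F hF U hU hne hU0 c => ?_ }⟩
  · filter_upwards [hG, hnull S hS] with ω h1 h2
    rw [h1.eq]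
    exact withDensity_absolutelyContinuous _ _ h2
  · obtain ⟨m', h1, h2⟩ := h.vg_kt hc hR he he0 hfc F (hg F hF).1 c
    exact (h1.zz_one hV (compl_ne hV0)).trans (h2 V hV hV0)
  · have h1 : H.map '' closedBall 0 4 ⊆ F.map '' closedBall 0 4 := by
      rintro _ ⟨x, hx, rfl⟩
      have h2 := hGm.closure G.continuous_map
      rw [U0, closure_ball _ (by norm_num)] at h2
      exact ⟨_, h2 hx, (hH x).symm⟩
    have hHa : H.Adm := ⟨fun h => hF.1 (h1 h), fun h => hF.2 (h1 h)⟩
    have hz : H.z = aff F.z F.a G.z := by simpa [Fr.map_apply, aff] using hH 0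
    have ha : H.a = F.a * G.a := by
      have h2 := hH 1
      simp only [Fr.map_apply, hz, aff] at h2
      linear_combination h2
    refine ⟨hHa, fun ω φ hφ => ?_⟩
    simp only [hkt]
    rw [absF_absF hz ha, absF_Sm H (g F).continuous, absF_Sm H (g H).continuous,
      int_congr hφ (g' := fun x => g H (H.map x)) fun x hx => ?_]
    rw [(hg H hHa).1 x hx, hH, (hg F hF).1 _ (hGm hx)]
  · have h1 : ∀ᵐ ω ∂P, ∀ i, v i ∈ U → _ :=
      ae_all_iff.2 fun i => eventually_imp_distrib_left.2 (ge F hF U hU hU0 (v i))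
    filter_upwards [h1, hd] with ω h2 h3 c x hx
    exact hje' U _ (fun x => ex (gam / 4 * c) * dOut (d ω) (F.map x) (F.map '' U)) U hU
      (fun i hi => h2 i hi c) x hx ((ENNReal.continuous_const_mul (len_ex_ne_top _)).comp
        ((continuous_dOut h3 _).comp F.continuous_map)).continuousAt
  · have h1 : ∀ᵐ ω ∂P, ∀ i, (w i).1 ∈ U → _ := ae_all_iff.2 fun i =>
      eventually_imp_distrib_left.2 fun hi => gt F hF U hU hU0 (w i).1 hi (w i).2
    filter_upwards [h1, hd] with ω h2 h3 c x hx y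
    exact hjt' U _ (fun p => ex (gam / 4 * c) * min (ENNReal.ofReal (d ω (F.map p.1) (F.map p.2)))
      (dOut (d ω) (F.map p.1) (F.map '' U))) (Prod.fst ⁻¹' U) (hU.preimage continuous_fst)
      (fun i hi => h2 i hi c) (x, y) hx ((ENNReal.continuous_const_mul (len_ex_ne_top _)).comp
        ((hdc h3 (F.continuous_map.comp continuous_fst) (F.continuous_map.comp continuous_snd)).min
          ((continuous_dOut h3 _).comp (F.continuous_map.comp continuous_fst)))).continuousAt
  · obtain ⟨m', h1, h2⟩ := h.vg_kt hc hR he he0 hfc F (hg F hF).1 c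
    have := h.prob
    have h3 : m' U ≠ 0 := h2 U hU hU0 ▸ mul_ne_zero (len_ex_ne_zero _)
      (h.supp _ (F.image_eq U ▸ hU.preimage F.continuous_inv) (hne.image _))
    have h4 : m' U ≠ ⊤ := h2 U hU hU0 ▸ ENNReal.mul_ne_top (len_ex_ne_top _) (measure_ne_top _ _)
    rw [hjk3 U hU hU0 _ m' h1 h3 h4, ← Sp.cond_smul ((μ ω).map F.inv) U (gam * c)]
    refine cond_ext hU h3 h4 fun V hV hVU => ?_
    rw [h2 V hV (hVU.trans hU0), Measure.smul_apply, smul_eq_mul,
      Measure.map_apply F.continuous_inv.measurable hV.measurableSet, F.image_eq]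

end Pool.Agent.QL
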