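import Pool.Agent.P.MP_7a6434d8_pr.QL.Sph.Defs
import Pool.Agent.P.MP_7a6434d8_pr.QL.Frames
import Pool.Agent.P.MP_ca04ec_pr.G.Len

/-! Block G6: geodesic metrics on the sphere, internal distances and the distance to a complement. -/

open MeasureTheory ProbabilityTheory Set Filter Topology Metric
open scoped ENNReal

namespace Pool.Agent.QL

open Pool.Agent.LGD

namespace Sp
end Sp

open Sp

variable {d : Sph → Sph → ℝ}

theorem IsGeoMetric.sph_self (hd : IsGeoMetric d) (x : Sph) : d x x = 0 := (hd.eq_iff x x).2 rfl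

theorem IsGeoMetric.sph_nonneg (hd : IsGeoMetric d) (x y : Sph) : 0 ≤ d x y := by
  have h := hd.triangle x y x
  rw [hd.sph_self, hd.symm y x] at h
  linarith

theorem IsGeoMetric.sph_cont (hd : IsGeoMetric d) (x : Sph) : Continuous (d x) :=
  hd.cont.comp (continuous_const.prodMk continuous_id)

theorem IsGeoMetric.sph_small (hd : IsGeoMetric d) (z : Sph) {N : Set Sph} (hN : N ∈ 𝓝 z) :
    ∃ ε > 0, ∀ w, d z w < ε → w ∈ N := by
  rcases (interior N)ᶜ.eq_empty_or_nonempty with h | h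
  · refine ⟨1, one_pos, fun w _ => interior_subset ?_⟩
    by_contra hw
    exact (h ▸ hw : w ∈ (∅ : Set Sph))
  · obtain ⟨p, hp, hmin⟩ := isOpen_interior.isClosed_compl.isCompact.exists_isMinOn h
      (hd.sph_cont z).continuousOn
    refine ⟨d z p, lt_of_le_of_ne (hd.sph_nonneg z p) fun h0 => hp ?_, fun w hw => ?_⟩
    · rw [← (hd.eq_iff z p).1 h0.symm]
      exact mem_interior_iff_mem_nhds.2 hN
    · by_contra hwN
      exact absurd (hmin (fun h => hwN (interior_subset h) : w ∈ (interior N)ᶜ)) (not_le.2 hw)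

theorem IsGeoMetric.sph_geo_cont (hd : IsGeoMetric d) {g : ℝ → Sph} {L : ℝ}
    (hg : ∀ s ∈ Icc (0 : ℝ) 1, ∀ t ∈ Icc (0 : ℝ) 1, d (g s) (g t) = |s - t| * L) :
    ContinuousOn g (Icc 0 1) := by
  intro s hs N hN
  obtain ⟨ε, hε, h⟩ := hd.sph_small (g s) hN
  have hc : Continuous fun t : ℝ => |s - t| * L := by fun_prop
  have h1 : ∀ᶠ t in 𝓝 s, |s - t| * L < ε :=
    hc.continuousAt.eventually_lt_const (by simpa using hε)
  rw [mem_map]
  filter_upwards [nhdsWithin_le_nhds h1, self_mem_nhdsWithin] with t h2 h3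
  exact h _ (by rwa [hg s hs t h3])

/-- The finite part of a point of the sphere. -/
noncomputable def Sp.toC (s : Sph) : ℂ := OnePoint.rec 0 id s

theorem Sp.toC_coe (z : ℂ) : toC (z : Sph) = z := rfl

theorem Sp.continuousAt_toC (z : ℂ) : ContinuousAt toC (z : Sph) :=
  OnePoint.continuousAt_coe.2 continuousAt_id

theorem sph_le_internal (d : ℂ → ℂ → ℝ) (x y : ℂ) (V : Set ℂ) :
    ENNReal.ofReal (d x y) ≤ internal d x y V := by
  rw [internal_eq]
  refine le_iInf fun g => ?_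
  obtain ⟨g, -, h0, h1, -⟩ := g
  refine le_iSup_of_le 1 (le_iSup_of_le (fun i : ℕ => min (i : ℝ) 1) (le_iSup_of_le
    (fun i j h => min_le_min (by exact_mod_cast h) le_rfl) (le_iSup_of_le
      (fun i => ⟨le_min (Nat.cast_nonneg i) zero_le_one, min_le_right _ _⟩) ?_)))
  simp [h0, h1]

theorem IsGeoMetric.internal_of_lt (hd : IsGeoMetric d) {x y : ℂ} {V : Set ℂ}
    (h : ENNReal.ofReal (d x y) < dOut d x V) :
    internal (fun a b : ℂ => d a b) x y V = ENNReal.ofReal (d x y) := by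
  refine le_antisymm ?_ (sph_le_internal (fun a b : ℂ => d a b) x y V)
  obtain ⟨g, h0, h1, hg⟩ := hd.geo x y
  have hL := hd.sph_nonneg x y
  have hV : ∀ s ∈ Icc (0 : ℝ) 1, ∃ z ∈ V, (z : Sph) = g s := by
    intro s hs
    by_contra hn
    have h2 : dOut d x V ≤ ENNReal.ofReal (d x (g s)) := iInf₂_le (g s) hn
    have h3 : d x (g s) ≤ d x y := by
      rw [← h0, hg 0 ⟨le_rfl, zero_le_one⟩ s hs, h0, zero_sub, abs_neg, abs_of_nonneg hs.1]
      nlinarith [hs.2]
    exact absurd (h2.trans (ENNReal.ofReal_le_ofReal h3)) (not_le.2 h)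
  have he : ∀ s ∈ Icc (0 : ℝ) 1, ((toC (g s) : ℂ) : Sph) = g s := fun s hs => by
    obtain ⟨z, -, hz⟩ := hV s hs
    rw [← hz, toC_coe]
  have hp : IsPth (fun s => toC (g s)) x y V := by
    refine ⟨fun s hs => ?_, by simp only [h0, toC_coe], by simp only [h1, toC_coe], fun s hs => ?_⟩
    · obtain ⟨z, -, hz⟩ := hV s hs
      exact ContinuousAt.comp_continuousWithinAt (g := toC) (hz ▸ continuousAt_toC z)
        (hd.sph_geo_cont hg s hs)
    · obtain ⟨z, hzV, hz⟩ := hV s hs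
      simpa only [← hz, toC_coe] using hzV
  refine (internal_le hp).trans ?_
  refine iSup_le fun n => iSup_le fun u => iSup_le fun hu => iSup_le fun hm => ?_
  have e : ∀ i, d ((toC (g (u i)) : ℂ) : Sph) ((toC (g (u (i + 1))) : ℂ) : Sph) =
      (u (i + 1) - u i) * d x y := fun i => by
    rw [he _ (hm i), he _ (hm (i + 1)), hg _ (hm i) _ (hm (i + 1)), abs_sub_comm,
      abs_of_nonneg (sub_nonneg.2 (hu (Nat.le_succ i)))]
  simp only [e]
  rw [← ENNReal.ofReal_sum_of_nonneg fun i _ =>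
    mul_nonneg (sub_nonneg.2 (hu (Nat.le_succ i))) hL, ← Finset.sum_mul,
    Finset.sum_range_sub]
  refine ENNReal.ofReal_le_ofReal ?_
  nlinarith [(hm n).2, (hm 0).1]

theorem IsGeoMetric.min_internal (hd : IsGeoMetric d) (x y : ℂ) (V : Set ℂ) :
    min (internal (fun a b : ℂ => d a b) x y V) (dOut d x V) =
      min (ENNReal.ofReal (d x y)) (dOut d x V) := by
  rcases lt_or_ge (ENNReal.ofReal (d x y)) (dOut d x V) with h | h
  · rw [hd.internal_of_lt h]
  · rw [min_eq_right h, min_eq_right (h.trans (sph_le_internal (fun a b : ℂ => d a b) x y V))]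

theorem IsGeoMetric.dOut_eq (hd : IsGeoMetric d) {V : Set ℂ} (hV : IsOpen V) {x : ℂ} (hx : x ∈ V)
    {ι : Type} (y : ι → ℂ) (hy : DenseRange y) (K : ℕ → Set ℂ) (hK : ∀ n, IsCompact (K n))
    (hKV : ∀ n, K n ⊆ V) (hK' : ∀ C, IsCompact C → C ⊆ V → ∃ n, C ⊆ K n) :
    dOut d x V = ⨆ n, ⨅ (i : ι) (_ : y i ∉ K n), internal (fun a b : ℂ => d a b) x (y i) V := by
  have hop : IsOpen ((fun z : ℂ => (z : Sph)) '' V) := OnePoint.isOpen_image_coe.2 hV
  obtain ⟨p, hp, hmin⟩ := hop.isClosed_compl.isCompact.exists_isMinOn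
    ⟨OnePoint.infty, OnePoint.infty_notMem_image_coe⟩ (hd.sph_cont x).continuousOn
  have hρ : dOut d x V = ENNReal.ofReal (d x p) :=
    le_antisymm (iInf₂_le p hp) (le_iInf₂ fun w hw => ENNReal.ofReal_le_ofReal (hmin hw))
  have hpos : 0 < d x p := lt_of_le_of_ne (hd.sph_nonneg x p) fun h0 =>
    hp ⟨x, hx, (hd.eq_iff _ _).1 h0.symm⟩
  apply le_antisymm
  · refine le_of_forall_lt_imp_le_of_dense fun r hr => ?_
    have hC : IsCompact {w : Sph | ENNReal.ofReal (d x w) ≤ r} :=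
      (isClosed_le (ENNReal.continuous_ofReal.comp (hd.sph_cont x)) continuous_const).isCompact
    have hCV : {w : Sph | ENNReal.ofReal (d x w) ≤ r} ⊆ (fun z : ℂ => (z : Sph)) '' V := by
      intro w hw
      by_contra hn
      exact absurd ((iInf₂_le w hn : dOut d x V ≤ _).trans hw) (not_le.2 hr)
    obtain ⟨n, hn⟩ := hK' _ (OnePoint.isOpenEmbedding_coe.isInducing.isCompact_preimage' hC
      (hCV.trans (image_subset_range _ _))) (fun z hz => by
        obtain ⟨z', hz', e⟩ := hCV hz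
        rwa [← OnePoint.coe_injective e])
    refine le_iSup_of_le n (le_iInf₂ fun i hi => ?_)
    refine le_trans ?_ (sph_le_internal (fun a b : ℂ => d a b) x (y i) V)
    by_contra hlt
    exact hi (hn (not_le.1 hlt).le)
  · refine iSup_le fun n => ?_
    obtain ⟨g, h0, h1, hg⟩ := hd.geo x p
    have hcl : IsClosed ((fun z : ℂ => (z : Sph)) '' K n) :=
      ((hK n).image OnePoint.continuous_coe).isClosed
    have hpK : g 1 ∈ ((fun z : ℂ => (z : Sph)) '' K n)ᶜ := fun h =>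
      hp (image_mono (hKV n) (h1 ▸ h))
    have h2 : ∀ᶠ t in 𝓝[Icc (0 : ℝ) 1] 1, g t ∈ ((fun z : ℂ => (z : Sph)) '' K n)ᶜ :=
      hd.sph_geo_cont hg 1 ⟨zero_le_one, le_rfl⟩ (hcl.isOpen_compl.mem_nhds hpK)
    have h3 : ∀ᶠ t in 𝓝[Ico (0 : ℝ) 1] 1, g t ∈ ((fun z : ℂ => (z : Sph)) '' K n)ᶜ :=
      nhdsWithin_mono _ Ico_subset_Icc_self h2
    have hne : (𝓝[Ico (0 : ℝ) 1] 1).NeBot := right_nhdsWithin_Ico_neBot zero_lt_one
    obtain ⟨t, ht, ht'⟩ := (h3.and self_mem_nhdsWithin).exists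
    have hlt : d x (g t) < d x p := by
      rw [← h0, hg 0 ⟨le_rfl, zero_le_one⟩ t ⟨ht'.1, ht'.2.le⟩, h0, zero_sub, abs_neg,
        abs_of_nonneg ht'.1]
      nlinarith [ht'.2]
    obtain ⟨z, -, hz⟩ : g t ∈ (fun z : ℂ => (z : Sph)) '' V := by
      by_contra hn
      exact absurd (hmin hn) (not_le.2 hlt)
    have hW : IsOpen {w : ℂ | d x w < d x p ∧ w ∉ K n} :=
      (isOpen_lt ((hd.sph_cont x).comp OnePoint.continuous_coe) continuous_const).inter
        (hK n).isClosed.isOpen_compl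
    obtain ⟨i, hi1, hi2⟩ := hy.exists_mem_open hW
      ⟨z, by simpa only [hz] using hlt, fun h => ht ⟨z, h, hz⟩⟩
    have h4 : ENNReal.ofReal (d x (y i)) < dOut d x V := by
      rw [hρ]
      exact (ENNReal.ofReal_lt_ofReal_iff hpos).2 hi1
    exact (iInf₂_le i hi2).trans ((hd.internal_of_lt h4).le.trans h4.le)

/-- Gaussian rationals, enumerated. -/
noncomputable def Sp.qc (q : ℚ × ℚ) : ℂ := (q.1 : ℂ) + (q.2 : ℂ) * Complex.I

theorem Sp.denseRange_qc : DenseRange qc := by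
  refine Metric.denseRange_iff.2 fun p ε hε => ?_
  obtain ⟨_, ⟨a, b, rfl⟩, h⟩ := len_exists_isQ p hε
  exact ⟨(a, b), by rwa [dist_comm, dist_eq_norm]⟩

/-- Exhaustion of an open set. -/
def Sp.exh (U : Set ℂ) (n : ℕ) : Set ℂ := {z | 1 / ((n : ℝ) + 1) ≤ infDist z Uᶜ}

theorem Sp.exh_subset (U : Set ℂ) (n : ℕ) : exh U n ⊆ U := fun z hz => by
  by_contra h
  have h1 : 1 / ((n : ℝ) + 1) ≤ infDist z Uᶜ := hz
  rw [infDist_zero_of_mem h] at h1
  exact absurd h1 (not_le.2 Nat.one_div_pos_of_nat)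

theorem Sp.inj_map (F : Fr) : Function.Injective F.map :=
  Function.LeftInverse.injective F.inv_map

theorem IsGeoMetric.dOut_frame (hd : IsGeoMetric d) (F : Fr) {U : Set ℂ} (hU : IsOpen U)
    (hU0 : U ⊆ U0) {x : ℂ} (hx : x ∈ U) :
    dOut d (F.map x) (F.map '' U) = ⨆ n, ⨅ (q : ℚ × ℚ) (_ : qc q ∉ exh U n),
      internal (fun a b : ℂ => d a b) (F.map x) (F.map (qc q)) (F.map '' U) := by
  have hne : Uᶜ.Nonempty := nonempty_compl.2 fun h =>
    NormedSpace.unbounded_univ ℝ ℂ (h ▸ isBounded_ball.subset hU0)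
  have hc : ∀ n, IsCompact (exh U n) := fun n =>
    isCompact_of_isClosed_isBounded (isClosed_le continuous_const (continuous_infDist_pt _))
      (isBounded_ball.subset ((exh_subset U n).trans hU0))
  rw [hd.dOut_eq (V := F.map '' U) (by rw [F.image_eq]; exact hU.preimage F.continuous_inv)
    (mem_image_of_mem _ hx) (fun q => F.map (qc q))
    ((Function.RightInverse.surjective F.map_inv).denseRange.comp denseRange_qc F.continuous_map)
    (fun n => F.map '' exh U n) (fun n => (hc n).image F.continuous_map)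
    (fun n => image_mono (exh_subset U n)) ?_]
  · simp only [(Sp.inj_map F).mem_set_image]
  · intro C hC hCU
    rcases C.eq_empty_or_nonempty with rfl | hne'
    · exact ⟨0, empty_subset _⟩
    obtain ⟨z, hz, hmin⟩ := hC.exists_isMinOn hne'
      ((continuous_infDist_pt Uᶜ).comp F.continuous_inv).continuousOn
    have hzU : F.inv z ∈ U := by simpa only [F.image_eq, mem_preimage] using hCU hz
    obtain ⟨n, hn⟩ := exists_nat_one_div_lt
      ((hU.isClosed_compl.notMem_iff_infDist_pos hne).1 fun h => h hzU)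
    refine ⟨n, fun w hw => ?_⟩
    rw [F.image_eq]
    exact hn.le.trans (hmin hw)

end Pool.Agent.QL
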