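import Pool.Agent.P.MP_7a6434d8_pr.QL.Sph.Geo
import Pool.Agent.P.MP_7a6434d8_pr.QL.GT.Basic
import Pool.Agent.P.MP_ca04ec_pr.G.CovD

/-! Block G6: quasi-invariance, local versions of internal distances, joint measurability. -/

open MeasureTheory ProbabilityTheory Set Filter Topology Metric
open scoped ENNReal

namespace Pool.Agent.QL.Sp

open Pool.Agent.LGD

/-- The law of the normalised field is equivalent to `ν`. -/
structure Eqv {Ω : Type} [MeasurableSpace Ω] (P : Measure Ω) (ν : Measure Dist) (X : Ω → Dist) :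
    Prop where
  meas : Measurable X
  ac : P.map (fun ω => norm0 (X ω)) ≪ ν
  ac' : ν ≪ P.map (fun ω => norm0 (X ω))

theorem norm0_norm0 (k : Dist) : norm0 (norm0 k) = norm0 k := by
  rw [← norm0_lev (norm0 k) (k psi), lev_norm0]

theorem Tm_norm0 {a : ℂ} (ha : a ≠ 0) (z : ℂ) (k : Dist) : Tm z a (norm0 k) = Tm z a k := by
  rw [← Tm_lev ha z (norm0 k) (k psi), lev_norm0]

theorem norm0_absF (F : Fr) (k : Dist) : norm0 (absF F k) = Tm F.z F.a (norm0 k) := by
  rw [absF_eq, norm0_lev, Tm_norm0 F.a_ne, Tm, norm0_norm0]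

theorem norm0_Sm (g : Test) (k : Dist) : norm0 (Sm g k) = Sm (LGD.shift (lap0 g)) (norm0 k) := by
  ext φ
  have e : LGD.shift (lap0 g) = fun x => g x - ∫ y, g y * psi y := by
    funext x
    simp only [LGD.shift, green]
  rw [norm0_apply, Sm_apply g.continuous, Sm_apply (shift_continuous _), norm0_apply, e]
  congr 1
  have e1 : ∀ x, g x * cen φ x = g x * φ x - (∫ y, φ y) * (g x * psi x) := fun x => by
    change g x * (φ x - (∫ y, φ y) * psi x) = _
    ring
  simp only [e1, sub_mul]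
  rw [integral_sub (Test.integrable_mul _ g.continuous)
    ((Test.integrable_mul _ g.continuous).const_mul _), integral_sub
    (Test.integrable_mul _ g.continuous) (Test.integrable_mul _ continuous_const),
    integral_const_mul, integral_const_mul, mul_comm]

namespace Eqv

variable {Ω : Type} [MeasurableSpace Ω] {P : Measure Ω} {ν : Measure Dist} {X : Ω → Dist}

theorem ae (h : Eqv P ν X) {p : Dist → Prop} (hp : ∀ᵐ k ∂ν, p k) : ∀ᵐ ω ∂P, p (norm0 (X ω)) :=
  ae_of_ae_map (measurable_norm0.comp h.meas).aemeasurable (h.ac.ae_le hp)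

theorem ae' (h : Eqv P ν X) {p : Dist → Prop} (hm : MeasurableSet {k | p k})
    (hp : ∀ᵐ ω ∂P, p (norm0 (X ω))) : ∀ᵐ k ∂ν, p k :=
  h.ac'.ae_le ((ae_map_iff (measurable_norm0.comp h.meas).aemeasurable hm).2 hp)

theorem map (h : Eqv P ν X) {Y : Ω → Dist} (hY : Measurable Y) {T : Dist → Dist}
    (hT : Measurable T) (h1 : ν.map T ≪ ν) (h2 : ν ≪ ν.map T)
    (e : ∀ ω, norm0 (Y ω) = T (norm0 (X ω))) : Eqv P ν Y := by
  have e' : P.map (fun ω => norm0 (Y ω)) = (P.map fun ω => norm0 (X ω)).map T :=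
    (congrArg (fun f => P.map f) (funext e)).trans
      (Measure.map_map hT (measurable_norm0.comp h.meas)).symm
  exact ⟨hY, e' ▸ (h.ac.map hT).trans h1, e' ▸ h2.trans (h.ac'.map hT)⟩

theorem sm (h : Eqv P ν X) (hν : IsCanon ν) (g : Test) : Eqv P ν fun ω => Sm g (X ω) := by
  refine h.map ((measurable_Sm g).comp h.meas) (measurable_Sm (LGD.shift (lap0 g))) ?_ ?_
    fun ω => norm0_Sm g _
  · rw [hν.cm_law _ (integral_lap0 g)]
    exact withDensity_absolutelyContinuous _ _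
  · rw [hν.cm_law _ (integral_lap0 g)]
    exact withDensity_absolutelyContinuous' (CMAux.measurable_dens _ _).aemeasurable
      (ae_of_all _ fun _ => len_ex_ne_zero _)

theorem lev (h : Eqv P ν X) {c : Ω → ℝ} (hc : Measurable c) :
    Eqv P ν fun ω => lev (X ω) (c ω) :=
  h.map (measurable_lev.comp (h.meas.prodMk hc)) measurable_id
    (by rw [Measure.map_id]) (by rw [Measure.map_id]) fun ω => norm0_lev _ _

theorem absF (h : Eqv P ν X) (hν : IsCanon ν) (F : Fr) : Eqv P ν fun ω => absF F (X ω) :=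
  h.map ((measurable_absF F).comp h.meas) (measurable_Tm F.z F.a)
    (by rw [(hν.Tm_mp F.a_ne F.z).map_eq]) (by rw [(hν.Tm_mp F.a_ne F.z).map_eq])
    fun ω => norm0_absF F _

theorem congr (h : Eqv P ν X) {P' : Measure Ω} (h1 : P' ≪ P) (h2 : P ≪ P') : Eqv P' ν X :=
  ⟨h.meas, (h1.map (measurable_norm0.comp h.meas)).trans h.ac,
    h.ac'.trans (h2.map (measurable_norm0.comp h.meas))⟩

theorem ae_lev (h : Eqv P ν X) (hν : IsCanon ν) {p : Dist → Prop} (hp : ∀ᵐ k ∂nuh ν, p k) :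
    ∀ᵐ ω ∂P, ∀ᵐ t : ℝ, p (QL.lev (X ω) t) := by
  refine (h.ae (ae_nuh_kt hν hp)).mono fun ω hω => (ae_shift hω (X ω psi)).mono fun t ht => ?_
  rwa [add_comm, ← lev_lev, lev_norm0] at ht

theorem eq_ac (h : Eqv P ν X) [SFinite P] (hν : IsCanon ν) :
    (P.prod (gaussianReal 0 1)).map (fun p => QL.lev (X p.1) p.2) ≪ nuh ν := by
  have hm : Measurable fun p : Ω × ℝ => QL.lev (X p.1) p.2 :=
    measurable_lev.comp ((h.meas.comp measurable_fst).prodMk measurable_snd)
  refine Measure.AbsolutelyContinuous.mk fun N hN h0 => ?_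
  rw [measure_eq_zero_iff_ae_notMem] at h0 ⊢
  rw [ae_map_iff hm.aemeasurable hN.compl]
  exact (Measure.ae_prod_iff_ae_ae (hm hN.compl)).2
    ((h.ae_lev hν h0).mono fun ω hω => gauss_ae.2 hω)

theorem eq_ac' (h : Eqv P ν X) [SFinite P] (hν : IsCanon ν) :
    nuh ν ≪ (P.prod (gaussianReal 0 1)).map (fun p => QL.lev (X p.1) p.2) := by
  have hm : Measurable fun p : Ω × ℝ => QL.lev (X p.1) p.2 :=
    measurable_lev.comp ((h.meas.comp measurable_fst).prodMk measurable_snd)
  refine Measure.AbsolutelyContinuous.mk fun N hN h0 => ?_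
  rw [measure_eq_zero_iff_ae_notMem] at h0 ⊢
  have h1 := Measure.ae_ae_of_ae_prod (ae_of_ae_map hm.aemeasurable h0)
  have hm' : MeasurableSet {k : Dist | ∀ᵐ t : ℝ, QL.lev k t ∉ N} := by
    have h2 := measurable_measure_prodMk_left (ν := (volume : Measure ℝ))
      (measurable_lev hN.compl).compl
    exact h2 (measurableSet_singleton 0)
  refine ae_nuh_of_kt hν hN.compl (h.ae' hm' (h1.mono fun ω hω => ?_))
  refine (ae_shift (gauss_ae.1 hω) (-X ω psi)).mono fun t ht => ?_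
  have e : QL.lev (X ω) (t + -X ω psi) = QL.lev (norm0 (X ω)) t := by
    conv_lhs => rw [← lev_norm0 (X ω), lev_lev, lev_norm0]
    congr 1
    ring
  rwa [e] at ht

end Eqv

variable {ν : Measure Dist} {ξ : ℝ} {D : Dist → ℂ → ℂ → ℝ}

theorem isAdd_lev (k : Dist) (c : ℝ) : IsAdd k (fun _ => c) (lev k c) := fun φ => by
  rw [lev_apply, integral_const_mul]

theorem int_frame (hν : IsCanon ν) (hD : IsLQGMetric gam ξ D) (F : Fr) :
    ∀ᵐ k₂ ∂ν, ∀ k₃, norm0 k₃ = k₂ → ∀ (c : ℝ) (x y : ℂ) (U : Set ℂ),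
      internal (D (lev (absF F k₃) c)) x y U =
        ex (ξ * c) * internal (D k₃) (F.map x) (F.map y) (F.map '' U) := by
  filter_upwards [hν.const_ae hD, hν.covD hD F.z F.a F.a_ne,
    (hν.Tm_mp F.a_ne F.z).quasiMeasurePreserving.ae (hν.const_ae hD)] with k₂ h1 h2 h3 k₃ hk c x y U
  have e1 : k₃ = lev k₂ (k₃ psi) := by rw [← hk, lev_norm0]
  have e2 : aff F.z F.a ⁻¹' (F.map '' U) = U := preimage_image_eq U (inj_map F)
  have h4 := h2 x y (F.map '' U)
  rw [e2] at h4
  rw [internal_scale (h1 _ k₃ (hk ▸ isAdd_norm0 k₃))]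
  change _ = _ * (_ * internal (D k₂) (aff F.z F.a x) (aff F.z F.a y) _)
  rw [h4, e1, absF_lev, lev_lev, internal_scale (h3 _ _ (isAdd_lev _ _)), ← mul_assoc, ← mul_assoc,
    ← CMAux.ex_add, ← CMAux.ex_add, ← e1]
  congr 2
  unfold Phi QQ
  ring

theorem exists_fbar (hν : IsCanon ν) (hD : IsLQGMetric gam ξ D) {U : Set ℂ} (hU : IsOpen U)
    (x y : ℂ) : ∃ Fb : Dist → ℝ≥0∞, Measurable[fieldSigma id U] Fb ∧ ∃ p : Dist → Prop,
      (∀ᵐ k ∂nuh ν, p k) ∧ ∀ (k : Dist) (I : ℝ≥0∞), (∀ᵐ t : ℝ, p (lev k t)) →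
        (∀ c, internal (D (lev k c)) x y U = ex (ξ * c) * I) →
        ∀ c, Fb (lev k c) = ex (ξ * c) * I := by
  have := nuh_prob hν
  obtain ⟨F0, hF0, h0⟩ := hD.locality Dist (nuh ν) id (isGFF_nuh hν) U hU x y
  refine ⟨fun k => ∫⁻ s in Icc (0 : ℝ) 1, ex (-(ξ * s)) * F0 (lev k s), ?_, _, h0,
    fun k I h1 h2 c => ?_⟩
  · have h1 : Measurable[(fieldSigma id U).prod inferInstance]
        fun p : Dist × ℝ => F0 (lev p.1 p.2) := by
      refine hF0.comp (measurable_toField fun φ hφ => ?_)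
      simp only [lev_apply]
      exact ((loc_eval hφ).comp (@measurable_fst _ _ (fieldSigma id U) _)).add
        ((@measurable_snd _ _ (fieldSigma id U) _).mul_const _)
    letI : MeasurableSpace Dist := fieldSigma id U
    exact Measurable.lintegral_prod_right'
      (f := fun p : Dist × ℝ => ex (-(ξ * p.2)) * F0 (lev p.1 p.2))
      ((CMAux.measurable_ex.comp (measurable_snd.const_mul ξ).neg).mul h1)
  · have h3 : ∀ᵐ s : ℝ, ex (-(ξ * s)) * F0 (lev (lev k c) s) = ex (ξ * c) * I := by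
      refine (ae_shift h1 c).mono fun s hs => ?_
      rw [lev_lev, add_comm c s, ← hs, id, h2, ← mul_assoc, ← CMAux.ex_add]
      congr 2
      ring
    simp only
    rw [lintegral_congr_ae (ae_restrict_of_ae h3)]
    simp

theorem exists_joint {A : Type} (M : MeasurableSpace A) {X : Type} [PseudoEMetricSpace X]
    [MeasurableSpace X] [OpensMeasurableSpace X] (v : ℕ → X) (hv : DenseRange v)
    (z : X → A → ℝ≥0∞) (hz : ∀ x, Measurable[M] (z x)) : ∃ J : A → X → ℝ≥0∞,
      Measurable[M.prod inferInstance] (fun p : A × X => J p.1 p.2) ∧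
      ∀ (a : A) (G : X → ℝ≥0∞) (W : Set X), IsOpen W → (∀ i, v i ∈ W → z (v i) a = G (v i)) →
        ∀ x ∈ W, ContinuousAt G x → J a x = G x := by
  refine ⟨fun a x => liminf (fun n => z (v (SimpleFunc.nearestPtInd v n x)) a) atTop,
    Measurable.liminf fun n => ?_, fun a G W hW h x hx hG => ?_⟩
  · have h1 : Measurable fun p : A × ℕ => z (v p.2) p.1 :=
      measurable_from_prod_countable_left fun i => hz (v i)
    exact h1.comp (measurable_fst.prodMk
      ((SimpleFunc.nearestPtInd v n).measurable.comp measurable_snd))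
  · have h1 : Tendsto (fun n => v (SimpleFunc.nearestPtInd v n x)) atTop (𝓝 x) :=
      SimpleFunc.tendsto_nearestPt (hv x)
    refine ((hG.tendsto.comp h1).congr' ?_).liminf_eq
    filter_upwards [h1.eventually (hW.mem_nhds hx)] with n hn
    exact (h _ hn).symm

theorem dOut_ne_top (d : Sph → Sph → ℝ) (x : ℂ) (V : Set ℂ) : dOut d x V ≠ ⊤ :=
  ne_top_of_le_ne_top ENNReal.ofReal_ne_top
    (iInf₂_le OnePoint.infty OnePoint.infty_notMem_image_coe)

theorem dOut_le {d : Sph → Sph → ℝ} (hd : IsGeoMetric d) (x x' : ℂ) (V : Set ℂ) :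
    dOut d x V ≤ dOut d x' V + ENNReal.ofReal (d x x') := by
  rw [← tsub_le_iff_right]
  refine le_iInf₂ fun y hy => tsub_le_iff_right.2 ((iInf₂_le y hy).trans ?_)
  rw [← ENNReal.ofReal_add (hd.sph_nonneg _ _) (hd.sph_nonneg _ _)]
  exact ENNReal.ofReal_le_ofReal (by linarith [hd.triangle x x' y])

theorem continuous_dOut {d : Sph → Sph → ℝ} (hd : IsGeoMetric d) (V : Set ℂ) :
    Continuous fun x => dOut d x V := by
  refine continuous_iff_continuousAt.2 fun x => ?_
  have h1 : Tendsto (fun x' : ℂ => ENNReal.ofReal (d x x')) (𝓝 x) (𝓝 0) := by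
    have := (ENNReal.continuous_ofReal.comp
      ((hd.sph_cont x).comp OnePoint.continuous_coe)).tendsto x
    simpa only [Function.comp_def, hd.sph_self, ENNReal.ofReal_zero] using this
  refine tendsto_of_tendsto_of_tendsto_of_le_of_le
    (g := fun x' : ℂ => dOut d x V - ENNReal.ofReal (d x x'))
    (h := fun x' : ℂ => dOut d x V + ENNReal.ofReal (d x x')) ?_ ?_
    (fun x' => tsub_le_iff_right.2 (dOut_le hd x x' V))
    (fun x' => by simpa only [hd.symm x x'] using dOut_le hd x' x V)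
  · simpa using ENNReal.Tendsto.sub tendsto_const_nhds h1 (Or.inl (dOut_ne_top d x V))
  · simpa using h1.const_add (dOut d x V)

theorem ae_of_antilip {Ψ : ℝ → ℝ} {δ : ℝ} (hδ : 0 < δ)
    (h : ∀ s ∈ Icc (0 : ℝ) 1, ∀ t ∈ Icc (0 : ℝ) 1, s ≤ t → δ * (t - s) ≤ Ψ t - Ψ s)
    {p : ℝ → Prop} (hp : ∀ᵐ t : ℝ, p t) : ∀ᵐ s ∂(volume.restrict (Icc (0 : ℝ) 1)), p (Ψ s) := by
  have h1 : ∀ s ∈ Icc (0 : ℝ) 1, ∀ t ∈ Icc (0 : ℝ) 1, δ * |s - t| ≤ |Ψ s - Ψ t| := by
    intro s hs t ht
    rcases le_total s t with hst | hst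
    · rw [abs_sub_comm, abs_of_nonneg (sub_nonneg.2 hst), abs_sub_comm]
      exact (h s hs t ht hst).trans (le_abs_self _)
    · rw [abs_of_nonneg (sub_nonneg.2 hst)]
      exact (h t ht s hs hst).trans (le_abs_self _)
  have hinj : InjOn Ψ (Icc 0 1) := fun s hs t ht e => by
    have := h1 s hs t ht
    rw [e, sub_self, abs_zero] at this
    exact sub_eq_zero.1 (abs_eq_zero.1 (le_antisymm (by nlinarith) (abs_nonneg _)))
  have hL : LipschitzOnWith (δ⁻¹).toNNReal (Function.invFunOn Ψ (Icc 0 1))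
      (Ψ '' Icc 0 1 ∩ {t | ¬p t}) := by
    refine LipschitzOnWith.of_dist_le' ?_
    rintro _ ⟨⟨s, hs, rfl⟩, -⟩ _ ⟨⟨t, ht, rfl⟩, -⟩
    rw [hinj.leftInvOn_invFunOn hs, hinj.leftInvOn_invFunOn ht, Real.dist_eq, Real.dist_eq,
      ← div_eq_inv_mul, le_div_iff₀' hδ]
    exact h1 s hs t ht
  have h2 := hL.hausdorffMeasure_image_le zero_le_one
  have h0 : volume (Ψ '' Icc 0 1 ∩ {t | ¬p t}) = 0 := measure_mono_null inter_subset_right hp
  rw [hausdorffMeasure_real, h0, mul_zero] at h2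
  rw [ae_restrict_iff' measurableSet_Icc]
  refine measure_mono_null (fun s hs => ?_) (le_zero_iff.1 h2)
  have hs' : s ∈ Icc (0 : ℝ) 1 ∧ ¬p (Ψ s) := Classical.not_imp.1 hs
  exact ⟨Ψ s, ⟨mem_image_of_mem _ hs'.1, hs'.2⟩, hinj.leftInvOn_invFunOn hs'.1⟩

theorem log_antilip {m : Measure ℂ} [IsProbabilityMeasure m] {g : ℂ → ℝ} (hg : Continuous g)
    (h0 : ∀ x, 0 ≤ g x) (h1 : ∀ x, g x ≤ 1) (hb : m {x | g x = 0} ≠ 0) {γ : ℝ} (hγ : 0 < γ) :
    ∃ δ > 0, ∀ s ∈ Icc (0 : ℝ) 1, ∀ t ∈ Icc (0 : ℝ) 1, s ≤ t → δ * (t - s) ≤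
      (t - Real.log (∫ x, Real.exp (γ * (t * g x)) ∂m) / γ) -
        (s - Real.log (∫ x, Real.exp (γ * (s * g x)) ∂m) / γ) := by
  have hb' : 0 < m.real {x | g x = 0} := ENNReal.toReal_pos hb (measure_ne_top _ _)
  have hbd : ∀ s ∈ Icc (0 : ℝ) 1, ∀ x, Real.exp (γ * (s * g x)) ≤ Real.exp γ := fun s hs x =>
    Real.exp_le_exp.2 (mul_le_of_le_one_right hγ.le (mul_le_one₀ hs.2 (h0 x) (h1 x)))
  have hi : ∀ s ∈ Icc (0 : ℝ) 1, Integrable (fun x => Real.exp (γ * (s * g x))) m := fun s hs =>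
    Integrable.of_bound (by fun_prop) (Real.exp γ) (ae_of_all _ fun x => by
      rw [Real.norm_of_nonneg (Real.exp_pos _).le]; exact hbd s hs x)
  refine ⟨m.real {x | g x = 0} / (Real.exp γ * Real.exp γ), by positivity, fun s hs t ht hst => ?_⟩
  have hu : 0 ≤ γ * (t - s) := mul_nonneg hγ.le (sub_nonneg.2 hst)
  set A := ∫ x, Real.exp (γ * (s * g x)) ∂m
  set B := ∫ x, Real.exp (γ * (t * g x)) ∂m
  have hA : 0 < A := integral_exp_pos (hi s hs)
  have hB : 0 < B := integral_exp_pos (hi t ht)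
  have hA' : A ≤ Real.exp γ := by
    simpa using integral_mono (hi s hs) (integrable_const (Real.exp γ)) (hbd s hs)
  have hms : MeasurableSet {x | g x = 0} := (isClosed_eq hg continuous_const).measurableSet
  have key : B + m.real {x | g x = 0} * (γ * (t - s)) ≤ Real.exp (γ * (t - s)) * A := by
    rw [← integral_const_mul, ← smul_eq_mul, ← integral_indicator_const _ hms,
      ← integral_add (hi t ht) ((integrable_const _).indicator hms)]
    refine integral_mono ((hi t ht).add ((integrable_const _).indicator hms))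
      ((hi s hs).const_mul _) fun x => ?_
    by_cases hx : g x = 0
    · simp only [indicator_of_mem (show x ∈ {x | g x = 0} from hx), hx, mul_zero, Real.exp_zero,
        mul_one]
      linarith [Real.add_one_le_exp (γ * (t - s))]
    · simp only [indicator_of_notMem (show x ∉ {x | g x = 0} from hx), add_zero]
      rw [← Real.exp_add]
      exact Real.exp_le_exp.2 (by nlinarith [mul_le_mul_of_nonneg_left (h1 x) hu])
  have hE : Real.exp (γ * (t - s)) ≤ Real.exp γ :=
    Real.exp_le_exp.2 (mul_le_of_le_one_right hγ.le (by linarith [hs.1, ht.2]))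
  have hP : 0 < Real.exp (γ * (t - s)) * A := by positivity
  have h2 := Real.log_le_sub_one_of_pos (div_pos hB hP)
  rw [Real.log_div hB.ne' hP.ne', Real.log_mul (Real.exp_pos _).ne' hA.ne', Real.log_exp,
    div_sub_one hP.ne'] at h2
  have h3 : (B - Real.exp (γ * (t - s)) * A) / (Real.exp (γ * (t - s)) * A) ≤
      -(m.real {x | g x = 0} * (γ * (t - s)) / (Real.exp γ * Real.exp γ)) := by
    rw [le_neg, ← neg_div]
    exact div_le_div₀ (by nlinarith [mul_nonneg hb'.le hu]) (by linarith) hP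
      (mul_le_mul hE hA' hA.le (Real.exp_pos _).le)
  have h4 : t - Real.log B / γ - (s - Real.log A / γ) =
      (γ * (t - s) + Real.log A - Real.log B) / γ := by field_simp; ring
  rw [h4, le_div_iff₀ hγ]
  have h5 : m.real {x | g x = 0} / (Real.exp γ * Real.exp γ) * (t - s) * γ =
      m.real {x | g x = 0} * (γ * (t - s)) / (Real.exp γ * Real.exp γ) := by ring
  linarith

end Pool.Agent.QL.Sp
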