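import Pool.Agent.P.MP_7a6434d8_pr.QL.Sph.Zz
import Pool.Agent.P.MP_7a6434d8_pr.QL.Sph.Law
import Pool.Agent.P.MP_7a6434d8_pr.QL.Frames
import Pool.Agent.P.MP_ca04ec_pr.G.Exists
import Pool.Agent.P.MP_ca04ec_pr.Tail.T0

/-! Block G6: null sets, support, the normalising constant, absolute continuity. -/

open MeasureTheory ProbabilityTheory Set Filter Topology Metric
open scoped ENNReal

namespace Pool.Agent.QL.Sp

open Pool.Agent.LGD

variable {γ c₀ : ℝ} {θ : Test} {R : ℝ} {e : ℕ → ℝ}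

theorem lev_eq_Sm (k : Dist) (c : ℝ) : lev k c = Sm (fun _ => c) k := by
  ext φ
  rw [lev_apply, Sm_apply continuous_const, integral_const_mul]

theorem norm0_eq (k : Dist) : norm0 k = lev k (-k psi) := by
  conv_rhs => rw [← lev_norm0 k, lev_lev, lev_norm0, add_neg_cancel, lev_zero]

theorem Vg.lev {k : Dist} {m : Measure ℂ} (h : Vg γ c₀ θ e k m) (hc : 0 < c₀)
    (hR : Mass.Bump θ R) (he : ∀ j, 0 < e j) (he0 : Tendsto e atTop (𝓝 0)) (c : ℝ) :
    Vg γ c₀ θ e (lev k c) (ex (γ * c) • m) := by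
  rw [lev_eq_Sm, ← withDensity_const]
  exact h.add hc hR he he0 continuous_const

theorem null_of_vg {Ω : Type} [MeasurableSpace Ω] {P : Measure Ω} {ν : Measure Dist}
    {X : Ω → Dist} (hν : IsCanon ν) (hX : Eqv P ν X) (hc : 0 < c₀) (hR : Mass.Bump θ R)
    (he : ∀ j, 0 < e j) (he0 : Tendsto e atTop (𝓝 0)) {m : Ω → Measure ℂ}
    (hv : ∀ᵐ ω ∂P, Vg γ c₀ θ e (X ω) (m ω)) {S : Set ℂ} (hS : volume S = 0) :
    ∀ᵐ ω ∂P, m ω S = 0 := by
  have h1 : ∀ n : ℕ, ∀ᵐ ω ∂P, m ω (S ∩ ball 0 n) = 0 := by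
    intro n
    obtain ⟨C, hC, h⟩ := zz_moment (γ := γ) hν hc hR he he0 n
    have h2 : ∀ i : ℕ, ∃ A ⊇ S, IsOpen A ∧ volume A < (i : ℝ≥0∞)⁻¹ := fun i =>
      S.exists_isOpen_lt_of_lt _ (by rw [hS]; exact ENNReal.inv_pos.2 (ENNReal.natCast_ne_top i))
    choose A hA hA' hA'' using h2
    have hm : ∀ i, Measurable (zz γ c₀ θ e (fun _ => 1) (A i ∩ ball 0 n)) := fun i =>
      (zz_loc1 hc hR he he0 _).mono (field_le _) le_rfl
    have h3 : ∫⁻ k, ⨅ i, zz γ c₀ θ e (fun _ => 1) (A i ∩ ball 0 n) k ∂ν = 0 := by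
      have h4 := ENNReal.Tendsto.const_mul (a := C) ENNReal.tendsto_inv_nat_nhds_zero (Or.inr hC)
      rw [mul_zero] at h4
      refine le_zero_iff.1 (ge_of_tendsto' h4 fun i => ?_)
      refine (lintegral_mono fun k => iInf_le _ i).trans ((h _ ((hA' i).inter
        isOpen_ball).measurableSet inter_subset_right).trans ?_)
      exact mul_le_mul_right ((measure_mono inter_subset_left).trans (hA'' i).le) _
    filter_upwards [hX.ae ((lintegral_eq_zero_iff (Measurable.iInf hm)).1 h3), hv] with ω h5 h6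
    have h7 : ex (γ * -X ω psi) * m ω (S ∩ ball 0 n) ≤ 0 := by
      refine le_of_le_of_eq (le_iInf fun i => ?_) h5
      rw [norm0_eq, (h6.lev hc hR he he0 _).zz_one ((hA' i).inter isOpen_ball)
        ⟨n, fun h => by simpa using h.2⟩]
      exact mul_le_mul_right (measure_mono (inter_subset_inter_left _ (hA i))) _
    exact (mul_eq_zero.1 (le_zero_iff.1 h7)).resolve_left (len_ex_ne_zero _)
  filter_upwards [ae_all_iff.2 h1] with ω h
  refine measure_mono_null (fun x hx => ?_) (measure_iUnion_null h)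
  obtain ⟨n, hn⟩ := exists_nat_gt ‖x‖
  exact mem_iUnion.2 ⟨n, hx, mem_ball_zero_iff.2 hn⟩

theorem gam_lt : gam < 2 := by
  rw [gam, Real.sqrt_lt' two_pos]; norm_num

theorem supp_of_lqg {ξ : ℝ} (hξ : 0 < ξ) (hc : 0 < c₀) {D : Dist → ℂ → ℂ → ℝ}
    (hD : IsLQGMetric gam ξ D) {Θ : ℝ → ℂ → Test} (hθ : IsMollifier θ Θ) {Ω : Type}
    [MeasurableSpace Ω] {P : Measure Ω} [IsProbabilityMeasure P] {h : Ω → Dist} (hh : IsGFF P h)
    {μ : Ω → Measure ℂ} (hμ : IsLQGMeasure P h gam c₀ Θ μ) :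
    ∀ᵐ ω ∂P, ∀ V : Set ℂ, IsOpen V → V.Nonempty → μ ω V ≠ 0 := by
  obtain ⟨Ω', _, S, g, X₀, -, -, hg, -, -, h1⟩ :=
    exists_setup gam ξ c₀ gam_pos gam_lt hξ hc D hD θ Θ hθ P h hh μ hμ
  filter_upwards [h1, hg.quasiMeasurePreserving.ae S.m_pos] with ω h2 h3 V hV ⟨p, hp⟩ h0
  obtain ⟨T, hT, -, hTV, -⟩ := len_exists_qball hV hp one_pos
  have h4 := measure_mono_null hTV h0
  rw [h2 T hT] at h4
  exact mul_ne_zero (len_ex_ne_zero _) (h3 T hT).ne' h4

/-- Total mass of the field `k + f` on `V`. -/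
noncomputable def ZS (c₀ : ℝ) (θ : Test) (e : ℕ → ℝ) (f : ℂ → ℝ) (V : Set ℂ) (k : Dist) : ℝ≥0∞ :=
  zz gam c₀ θ e (fun x => Real.exp (gam * f x)) (V ∩ {0, 1}ᶜ) k

/-- The normalising constant. -/
noncomputable def cz (c₀ : ℝ) (θ : Test) (e : ℕ → ℝ) (f : ℂ → ℝ) (k : Dist) : ℝ :=
  Real.log (ZS c₀ θ e f univ k).toReal / gam

theorem isOpen_O : IsOpen ({0, 1}ᶜ : Set ℂ) := (toFinite _).isClosed.isOpen_compl

variable {f : ℂ → ℝ}

theorem measurable_ZS (hc : 0 < c₀) (hR : Mass.Bump θ R) (he : ∀ j, 0 < e j)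
    (he0 : Tendsto e atTop (𝓝 0)) (hf : ContinuousOn f {0, 1}ᶜ) {V : Set ℂ} (hV : IsOpen V) :
    Measurable (ZS c₀ θ e f V) :=
  (zz_loc hc hR he he0 fun n => (cc_cut_mul (hV.inter isOpen_O) (Real.continuous_exp.comp_continuousOn
    (continuousOn_const.mul (hf.mono inter_subset_right))) n).1).mono (field_le _) le_rfl

theorem measurable_cz (hc : 0 < c₀) (hR : Mass.Bump θ R) (he : ∀ j, 0 < e j)
    (he0 : Tendsto e atTop (𝓝 0)) (hf : ContinuousOn f {0, 1}ᶜ) : Measurable (cz c₀ θ e f) :=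
  (measurable_ZS hc hR he he0 hf isOpen_univ).ennreal_toReal.log.div_const _

/-- The good event. -/
structure Good (c₀ : ℝ) (θ : Test) (e : ℕ → ℝ) (f : ℂ → ℝ) (k : Dist) (m μ : Measure ℂ) (c : ℝ) :
    Prop where
  vg : ∀ F : Fr, Vg gam c₀ θ (fun j => ‖F.a‖ * e j) k m
  null : m {0, 1} = 0
  prob : IsProbabilityMeasure μ
  eq : μ = m.withDensity fun z => ex (gam * (f z - c))
  supp : ∀ V : Set ℂ, IsOpen V → V.Nonempty → μ V ≠ 0

namespace Good

variable {k : Dist} {m μ : Measure ℂ} {c : ℝ}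

theorem vg1 (h : Good c₀ θ e f k m μ c) : Vg gam c₀ θ e k m := by
  simpa only [norm_rotF_a, one_mul] using h.vg (rotF 0)

theorem zs (h : Good c₀ θ e f k m μ c) (hc : 0 < c₀) (hR : Mass.Bump θ R) (he : ∀ j, 0 < e j)
    (he0 : Tendsto e atTop (𝓝 0)) (hf : ContinuousOn f {0, 1}ᶜ) {g : ℂ → ℝ} (hg : Continuous g)
    {V : Set ℂ} (hV : IsOpen V) :
    ZS c₀ θ e f V (Sm g k) = ex (gam * c) * ∫⁻ x in V, ex (gam * g x) ∂μ := by
  have hm : Measurable f := hf.measurable_of_countable_compl (by simp)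
  have h1 : Measurable fun x => ex (gam * g x) :=
    CMAux.measurable_ex.comp (hg.measurable.const_mul _)
  have h2 : Measurable fun x => ex (gam * (f x - c)) :=
    CMAux.measurable_ex.comp ((hm.sub_const c).const_mul _)
  have h3 : Measurable fun x => ENNReal.ofReal (Real.exp (gam * f x)) :=
    CMAux.measurable_ex.comp (hm.const_mul _)
  have h4 : (V ∩ {0, 1}ᶜ : Set ℂ) =ᵐ[m] V :=
    inter_ae_eq_left_of_ae_eq_univ (by simpa only [ae_eq_univ, compl_compl] using h.null)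
  rw [ZS, (h.vg1.add hc hR he he0 hg).zz_eq (hV.inter isOpen_O) ⟨0, fun h => h.2 (by simp)⟩
    (w := fun x => Real.exp (gam * f x)) (Real.continuous_exp.comp_continuousOn (continuousOn_const.mul (hf.mono inter_subset_right)))
    (fun _ => (Real.exp_pos _).le), h.eq,
    setLIntegral_withDensity_eq_setLIntegral_mul _ h1 h3 (hV.inter isOpen_O).measurableSet,
    setLIntegral_withDensity_eq_setLIntegral_mul _ h2 h1 hV.measurableSet, setLIntegral_congr h4,
    ← lintegral_const_mul _ (h2.mul h1)]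
  refine lintegral_congr fun x => ?_
  change ex _ * ex _ = ex _ * (ex _ * ex _)
  simp only [← CMAux.ex_add]
  congr 1
  ring

theorem zs0 (h : Good c₀ θ e f k m μ c) (hc : 0 < c₀) (hR : Mass.Bump θ R) (he : ∀ j, 0 < e j)
    (he0 : Tendsto e atTop (𝓝 0)) (hf : ContinuousOn f {0, 1}ᶜ) {V : Set ℂ} (hV : IsOpen V) :
    ZS c₀ θ e f V k = ex (gam * c) * μ V := by
  have h1 := h.zs hc hR he he0 hf (g := fun _ => 0) continuous_const hV
  rw [← lev_eq_Sm, lev_zero] at h1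
  simpa [ex] using h1

theorem cz_eq (h : Good c₀ θ e f k m μ c) (hc : 0 < c₀) (hR : Mass.Bump θ R) (he : ∀ j, 0 < e j)
    (he0 : Tendsto e atTop (𝓝 0)) (hf : ContinuousOn f {0, 1}ᶜ) : cz c₀ θ e f k = c := by
  have := h.prob
  rw [cz, h.zs0 hc hR he he0 hf isOpen_univ, measure_univ, mul_one, ex,
    ENNReal.toReal_ofReal (Real.exp_pos _).le, Real.log_exp, mul_div_cancel_left₀ _ gam_pos.ne']

theorem cz_sm (h : Good c₀ θ e f k m μ c) (hc : 0 < c₀) (hR : Mass.Bump θ R) (he : ∀ j, 0 < e j)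
    (he0 : Tendsto e atTop (𝓝 0)) (hf : ContinuousOn f {0, 1}ᶜ) (g : Test) (b : ℝ) :
    cz c₀ θ e f (lev (Sm g k) b) =
      c + b + Real.log (∫ x, Real.exp (gam * g x) ∂μ) / gam := by
  have := h.prob
  have hg : Continuous fun x => b + g x := continuous_const.add g.continuous
  have e1 : lev (Sm g k) b = Sm (fun x => b + g x) k := by
    ext φ
    rw [lev_apply, Sm_apply g.continuous, Sm_apply hg]
    simp only [add_mul]
    rw [integral_add ((Test.integrable φ).const_mul b) (Test.integrable_mul _ g.continuous),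
      integral_const_mul]
    ring
  obtain ⟨C, hC⟩ := g.continuous.bounded_above_of_compact_support g.hasCompactSupport
  have hi : Integrable (fun x => Real.exp (gam * g x)) μ :=
    Integrable.of_bound (by have := g.continuous; fun_prop) (Real.exp (gam * C))
      (ae_of_all _ fun x => by
        rw [Real.norm_of_nonneg (Real.exp_pos _).le]
        exact Real.exp_le_exp.2 (mul_le_mul_of_nonneg_left ((le_abs_self _).trans (hC x))
          gam_pos.le))
  rw [cz, e1, h.zs hc hR he he0 hf hg isOpen_univ, Measure.restrict_univ]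
  simp only [mul_add, CMAux.ex_add]
  rw [lintegral_const_mul' _ _ (len_ex_ne_top _)]
  unfold ex
  rw [← ofReal_integral_eq_lintegral_ofReal hi (ae_of_all _ fun _ => (Real.exp_pos _).le),
    ENNReal.toReal_mul, ENNReal.toReal_mul, ENNReal.toReal_ofReal (Real.exp_pos _).le,
    ENNReal.toReal_ofReal (Real.exp_pos _).le, ENNReal.toReal_ofReal (integral_exp_pos hi).le,
    Real.log_mul (Real.exp_pos _).ne' (mul_pos (Real.exp_pos _) (integral_exp_pos hi)).ne',
    Real.log_mul (Real.exp_pos _).ne' (integral_exp_pos hi).ne', Real.log_exp, Real.log_exp]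
  field_simp [gam_pos.ne']
  ring

theorem vg_kt (h : Good c₀ θ e f k m μ c) (hc : 0 < c₀) (hR : Mass.Bump θ R) (he : ∀ j, 0 < e j)
    (he0 : Tendsto e atTop (𝓝 0)) (hf : ContinuousOn f {0, 1}ᶜ) (F : Fr) {g : Test}
    (hg : ∀ x ∈ U0, g (F.map x) = f (F.map x)) (t : ℝ) : ∃ m' : Measure ℂ,
      Vg gam c₀ θ e (QL.lev (absF F (QL.lev (Sm g k) (-c))) t) m' ∧
      ∀ V, IsOpen V → V ⊆ U0 → m' V = ex (gam * t) * μ (F.map '' V) := by
  have he' : ∀ j, 0 < ‖F.a‖ * e j := fun j => mul_pos (norm_pos_iff.2 F.a_ne) (he j)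
  have he0' : Tendsto (fun j => ‖F.a‖ * e j) atTop (𝓝 0) := by simpa using he0.const_mul ‖F.a‖
  refine ⟨_, (((((h.vg F).add hc hR he' he0' g.continuous).lev hc hR he' he0' (-c)).frame F hc hR
    he).lev hc hR he he0 t), fun V hV hVU => ?_⟩
  have hm : MeasurableSet (F.inv ⁻¹' V) := (hV.preimage F.continuous_inv).measurableSet
  rw [Measure.smul_apply, smul_eq_mul, Measure.map_apply F.continuous_inv.measurable
    hV.measurableSet, Measure.smul_apply, smul_eq_mul, h.eq, F.image_eq, withDensity_apply _ hm,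
    withDensity_apply _ hm, ← lintegral_const_mul' _ _ (len_ex_ne_top _)]
  congr 1
  refine setLIntegral_congr_fun hm fun x hx => ?_
  have h1 := hg _ (hVU hx)
  rw [F.map_inv] at h1
  simp only [← CMAux.ex_add, h1]
  congr 1
  ring

end Good

theorem exists_kernel {Ω : Type} [MeasurableSpace Ω] {P : Measure Ω} {X : Ω → Dist}
    (hX : Measurable X) (hc : 0 < c₀) (hR : Mass.Bump θ R) (he : ∀ j, 0 < e j)
    (he0 : Tendsto e atTop (𝓝 0)) (hf : ContinuousOn f {0, 1}ᶜ) {m μ : Ω → Measure ℂ}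
    (hG : ∀ᵐ ω ∂P, Good c₀ θ e f (X ω) (m ω) (μ ω) (cz c₀ θ e f (X ω))) :
    ∃ κ : Kernel Ω ℂ, IsMarkovKernel κ ∧ ∀ᵐ ω ∂P, κ ω = μ ω := by
  classical
  obtain ⟨N, hN, hNm, hN0⟩ := exists_measurable_superset_of_null (ae_iff.1 hG)
  have hg : ∀ ω, ω ∉ N → Good c₀ θ e f (X ω) (m ω) (μ ω) (cz c₀ θ e f (X ω)) := fun ω h =>
    not_not.1 fun h' => h (hN h')
  have hp : ∀ ω, IsProbabilityMeasure (if ω ∈ N then Measure.dirac (0 : ℂ) else μ ω) := fun ω => by
    split_ifs with h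
    · infer_instance
    · exact (hg ω h).prob
  refine ⟨⟨fun ω => if ω ∈ N then Measure.dirac (0 : ℂ) else μ ω, ?_⟩, ⟨hp⟩, ?_⟩
  · refine @Measurable.measure_of_isPiSystem_of_isProbabilityMeasure _ _ _ _ _ hp _
      BorelSpace.measurable_eq isPiSystem_isOpen fun V hV => ?_
    have h1 : Measurable fun ω => if ω ∈ N then Measure.dirac (0 : ℂ) V else
        ex (-(gam * cz c₀ θ e f (X ω))) * ZS c₀ θ e f V (X ω) :=
      Measurable.ite hNm measurable_const ((CMAux.measurable_ex.comp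
        (((measurable_cz hc hR he he0 hf).comp hX).const_mul _).neg).mul
        ((measurable_ZS hc hR he he0 hf hV).comp hX))
    convert h1 using 2 with ω
    split_ifs with h
    · rfl
    · rw [(hg ω h).zs0 hc hR he he0 hf hV, ← mul_assoc, ← CMAux.ex_add]
      simp [ex]
  · filter_upwards [measure_eq_zero_iff_ae_notMem.1 hN0] with ω h
    exact if_neg h

theorem exists_cut (hf : ContDiffOn ℝ (⊤ : ℕ∞) f {0, 1}ᶜ) (F : Fr) (hF : F.Adm) :
    ∃ g b : Test, (∀ x ∈ U0, g (F.map x) = f (F.map x)) ∧ (∀ x ∈ U0, b (F.map x) = 1) ∧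
      (∀ x, 0 ≤ b x) ∧ ∀ x, b x ≤ 1 := by
  have ha := norm_pos_iff.2 F.a_ne
  have h1 : ∀ x, x ∉ F.map '' closedBall 0 4 → 4 * ‖F.a‖ < ‖x - F.z‖ := fun x hx => by
    rw [F.image_eq, mem_preimage, mem_closedBall_zero_iff, not_le] at hx
    change 4 < ‖(x - F.z) / F.a‖ at hx
    rwa [norm_div, lt_div_iff₀ ha] at hx
  obtain ⟨ρ, h2, h3⟩ := exists_between (lt_min (h1 0 hF.1) (h1 1 hF.2))
  let b : ContDiffBump F.z := ⟨4 * ‖F.a‖, ρ, by positivity, h2⟩
  have hb : ∀ x ∈ U0, b (F.map x) = 1 := fun x hx => b.one_of_mem_closedBall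
    (mem_closedBall_iff_norm.2 ((F.mem_image_ball 4 _).1 (mem_image_of_mem _ hx)).le)
  have hO : tsupport b ⊆ {0, 1}ᶜ := by
    rw [b.tsupport_eq]
    rintro x hx (rfl | rfl)
    · exact absurd (mem_closedBall_iff_norm.1 hx) (not_le.2 (h3.trans_le (min_le_left _ _)))
    · exact absurd (mem_closedBall_iff_norm.1 hx) (not_le.2 (h3.trans_le (min_le_right _ _)))
  have hs : Smooth fun x => b x * f x := contDiff_iff_contDiffAt.2 fun x => by
    by_cases hx : x ∈ tsupport b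
    · exact b.contDiff.contDiffAt.mul (hf.contDiffAt (isOpen_O.mem_nhds (hO hx)))
    · refine (contDiffAt_const (c := (0 : ℝ))).congr_of_eventuallyEq ?_
      filter_upwards [notMem_tsupport_iff_eventuallyEq.1 hx] with y hy
      rw [hy, Pi.zero_apply, zero_mul]
  refine ⟨⟨_, hs, b.hasCompactSupport.mul_right, subset_univ _⟩,
    ⟨b, b.contDiff, b.hasCompactSupport, subset_univ _⟩, fun x hx => ?_, hb, fun x => b.nonneg,
    fun x => b.le_one⟩
  change b _ * _ = _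
  rw [hb x hx, one_mul]

theorem absF_Sm (F : Fr) {g : ℂ → ℝ} (hg : Continuous g) (k : Dist) (t : ℝ) (φ : Test) :
    absF F (lev (Sm g k) t) φ = k (pushT F.z F.a φ) + (∫ x, g (F.map x) * φ x) +
      (t + QQ * Real.log ‖F.a‖) * ∫ x, φ x := by
  rw [absF_apply, lev_apply, Sm_apply hg, integral_mul_pushT F.a_ne, integral_pushT F.a_ne]
  unfold Fr.map
  ring

theorem int_congr {φ : Test} {U : Set ℂ} (hφ : tsupport φ ⊆ U) {g g' : ℂ → ℝ}
    (h : ∀ x ∈ U, g x = g' x) : ∫ x, g x * φ x = ∫ x, g' x * φ x := by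
  refine integral_congr_ae (ae_of_all _ fun x => ?_)
  by_cases hx : φ x = 0
  · simp only [hx, mul_zero]
  · simp only [h x (hφ (subset_tsupport _ hx))]

theorem ac_fixed {Ω : Type} [MeasurableSpace Ω] {P : Measure Ω} [SFinite P] {ν : Measure Dist}
    (hν : IsCanon ν) {X : Ω → Dist} (hX : Eqv P ν X) (hc : 0 < c₀) (hR : Mass.Bump θ R)
    (he : ∀ j, 0 < e j) (he0 : Tendsto e atTop (𝓝 0)) (hf : ContinuousOn f {0, 1}ᶜ)
    {m μ : Ω → Measure ℂ} (hG : ∀ᵐ ω ∂P, Good c₀ θ e f (X ω) (m ω) (μ ω) (cz c₀ θ e f (X ω)))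
    (F : Fr) (g b : Test) (hb : ∀ x ∈ U0, b (F.map x) = 1) (h0 : ∀ x, 0 ≤ b x)
    (h1 : ∀ x, b x ≤ 1) (c : ℝ) {N : Set Dist} (hN : MeasurableSet[fieldSigma id U0] N)
    (hN0 : nuh ν N = 0) :
    ∀ᵐ ω ∂P, lev (absF F (lev (Sm g (X ω)) (-cz c₀ θ e f (X ω)))) c ∉ N := by
  have hz := measurable_cz hc hR he he0 hf
  set T : Dist → Dist := fun k => absF F (lev (Sm g k) (c - cz c₀ θ e f k)) with hT
  have hTm : Measurable T := (measurable_absF F).comp
    (measurable_lev.comp ((measurable_Sm g).prodMk (hz.const_sub c)))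
  have hB : MeasurableSet {k | T k ∉ N} := hTm (field_le _ _ hN).compl
  have key : ∀ k m μ, Good c₀ θ e f k m μ (cz c₀ θ e f k) → ∀ s : ℝ,
      T (norm0 (Sm (s • b : Test) k)) ∈ N ↔ lev (absF F (lev (Sm g k) (-cz c₀ θ e f k)))
        (c + (s - Real.log (∫ x, Real.exp (gam * (s * b x)) ∂μ) / gam)) ∈ N := by
    intro k m μ hk s
    refine mem_iff_of_agree hN fun φ hφ => ?_
    have e1 : ∫ x, (s • b : Test) (aff F.z F.a x) * φ x = s * ∫ x, φ x := by
      rw [← integral_const_mul]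
      refine int_congr hφ fun x hx => ?_
      change s * b (F.map x) = s
      rw [hb x hx, mul_one]
    simp only [hT]
    rw [norm0_eq, hk.cz_sm hc hR he he0 hf, absF_Sm F g.continuous, lev_apply, lev_apply,
      absF_Sm F g.continuous, Sm_apply (s • b : Test).continuous, integral_mul_pushT F.a_ne,
      integral_pushT F.a_ne, e1]
    change _ = _ + (c + (s - Real.log (∫ x, Real.exp (gam * (s • b : Test) x) ∂μ) / gam)) * _
    ring
  have hkt := (((hX.sm hν g).lev (hz.comp hX.meas).neg).absF hν F).ae_lev hν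
    (measure_eq_zero_iff_ae_notMem.1 hN0)
  have h2 : ∀ᵐ ω ∂P, ∀ᵐ s ∂(volume.restrict (Icc (0 : ℝ) 1)),
      T (norm0 (Sm (s • b : Test) (X ω))) ∉ N := by
    filter_upwards [hG, hkt] with ω h3 h4
    have := h3.prob
    obtain ⟨δ, hδ, h5⟩ := log_antilip (m := μ ω) b.continuous h0 h1 (fun h6 => h3.supp
      (tsupport b)ᶜ (isClosed_tsupport b).isOpen_compl
      (nonempty_compl.2 b.hasCompactSupport.isCompact.ne_univ)
      (measure_mono_null (fun x hx => image_eq_zero_of_notMem_tsupport hx) h6)) gam_pos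
    filter_upwards [ae_of_antilip hδ h5 (ae_shift h4 c)] with s hs
    rwa [key _ _ _ h3, add_comm c]
  have hm : Measurable fun p : Ω × ℝ => Sm (p.2 • b : Test) (X p.1) := measurable_toDist fun φ => by
    have e1 : ∀ p : Ω × ℝ, Sm (p.2 • b : Test) (X p.1) φ = X p.1 φ + p.2 * ∫ x, b x * φ x :=
      fun p => by
        rw [Sm_apply (p.2 • b : Test).continuous, ← integral_const_mul]
        simp only [← mul_assoc]
        rfl
    simp only [e1]
    exact ((measurable_eval φ).comp (hX.meas.comp measurable_fst)).add (measurable_snd.mul_const _)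
  have : (ae (volume.restrict (Icc (0 : ℝ) 1))).NeBot :=
    ae_neBot.2 (by simp)
  obtain ⟨s, hs⟩ := ((Measure.ae_ae_comm (p := fun ω (s : ℝ) =>
    T (norm0 (Sm (s • b : Test) (X ω))) ∉ N) ((measurable_norm0.comp hm) hB)).1 h2).exists
  filter_upwards [hG, hX.ae ((hX.sm hν (s • b)).ae' hB hs)] with ω h3 h4
  have h5 := key _ _ _ h3 0
  have := h3.prob
  have e2 : Sm ((0 : ℝ) • b : Test) (X ω) = X ω := by
    ext φ
    rw [Sm_apply ((0 : ℝ) • b : Test).continuous]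
    simp
  rw [e2] at h5
  simpa [h4] using h5

end Pool.Agent.QL.Sp
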