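import Pool.Agent.P.MP_7a6434d8_pr.QL.Sph.Geo
import Pool.Agent.P.MP_7a6434d8_pr.QL.GT.Basic
import Pool.Agent.P.MP_ca04ec_pr.G.Mom

/-! Block G6: vague convergence of the approximate measures along one sequence of scales. -/

open MeasureTheory ProbabilityTheory Set Filter Topology Metric
open scoped ENNReal

namespace Pool.Agent.QL.Sp

open Pool.Agent.LGD

theorem sph_diag {Ω : Type} [MeasurableSpace Ω] (P : Measure Ω) {ι : Type} [Countable ι]
    (X : ι → ℝ → Ω → ℝ) (Y : ι → Ω → ℝ) (h : ∀ i, TendstoInMeasure P (X i) (𝓝[>] 0) (Y i)) :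
    ∃ e : ℕ → ℝ, (∀ j, 0 < e j) ∧ Tendsto e atTop (𝓝 0) ∧
      ∀ᵐ ω ∂P, ∀ i, Tendsto (fun j => X i (e j) ω) atTop (𝓝 (Y i ω)) := by
  obtain ⟨enc, henc⟩ := Countable.exists_injective_nat ι
  have hex : ∀ n : ℕ, ∃ ε : ℝ, (0 < ε ∧ ε < 1 / ((n : ℝ) + 1)) ∧ ∀ i ∈ enc ⁻¹' Iic n,
      P {ω | 1 / ((n : ℝ) + 1) ≤ dist (X i ε ω) (Y i ω)} ≤ (2⁻¹ : ℝ≥0∞) ^ n := by
    intro n
    have h1 : ∀ᶠ ε in 𝓝[>] (0 : ℝ), 0 < ε ∧ ε < 1 / ((n : ℝ) + 1) :=
      Ioo_mem_nhdsGT Nat.one_div_pos_of_nat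
    have h2 : ∀ᶠ ε in 𝓝[>] (0 : ℝ), ∀ i ∈ enc ⁻¹' Iic n,
        P {ω | 1 / ((n : ℝ) + 1) ≤ dist (X i ε ω) (Y i ω)} ≤ (2⁻¹ : ℝ≥0∞) ^ n :=
      (eventually_all_finite ((finite_Iic n).preimage henc.injOn)).2 fun i _ =>
        (tendstoInMeasure_iff_dist.1 (h i) _ Nat.one_div_pos_of_nat).eventually_le_const
          (ENNReal.pow_pos (by simp) n)
    exact (h1.and h2).exists
  choose e he he' using hex
  refine ⟨e, fun j => (he j).1, squeeze_zero (fun j => (he j).1.le) (fun j => (he j).2.le)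
    tendsto_one_div_add_atTop_nhds_zero_nat, ae_all_iff.2 fun i => ?_⟩
  have hs : ∑' n : ℕ, P {ω | enc i ≤ n ∧ 1 / ((n : ℝ) + 1) ≤ dist (X i (e n) ω) (Y i ω)} ≠ ∞ := by
    refine ne_top_of_le_ne_top (b := ∑' n : ℕ, (2⁻¹ : ℝ≥0∞) ^ n) (by simp) (ENNReal.tsum_le_tsum
      fun n => ?_)
    by_cases hn : enc i ≤ n
    · simpa only [hn, true_and] using he' n i hn
    · simp [hn]
  filter_upwards [ae_eventually_notMem hs] with ω hω
  rw [tendsto_iff_dist_tendsto_zero]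
  refine squeeze_zero' (Eventually.of_forall fun _ => dist_nonneg) ?_
    tendsto_one_div_add_atTop_nhds_zero_nat
  filter_upwards [hω, eventually_ge_atTop (enc i)] with n h1 h2
  exact (not_le.1 fun h3 => h1 ⟨h2, h3⟩).le

theorem sph_squeeze {a c : ℕ → ℝ} {A C : ℝ} (hc : Tendsto c atTop (𝓝 C))
    (h : ∀ η > 0, ∃ (b : ℕ → ℝ) (B : ℝ), Tendsto b atTop (𝓝 B) ∧
      (∀ᶠ j in atTop, |a j - b j| ≤ η * c j) ∧ |A - B| ≤ η * C) : Tendsto a atTop (𝓝 A) := by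
  refine Metric.tendsto_nhds.2 fun ε hε => ?_
  have hC : 0 < |C| + 1 := by positivity
  obtain ⟨b, B, hb, h1, h2⟩ := h (ε / 3 / (|C| + 1)) (by positivity)
  have h3 : ε / 3 / (|C| + 1) * (|C| + 1) = ε / 3 := by field_simp
  have h4 : 0 < ε / 3 / (|C| + 1) := by positivity
  filter_upwards [h1, Metric.tendsto_nhds.1 hb (ε / 3) (by positivity),
    hc.eventually_le_const (show C < |C| + 1 by linarith [le_abs_self C])] with j h5 h6 h7
  rw [Real.dist_eq] at h6 ⊢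
  have h8 := mul_le_mul_of_nonneg_left h7 h4.le
  have h9 := mul_le_mul_of_nonneg_left (show C ≤ |C| + 1 by linarith [le_abs_self C]) h4.le
  rw [abs_lt] at h6 ⊢
  rw [abs_le] at h5 h2
  constructor <;> linarith [h5.1, h5.2, h2.1, h2.2, h6.1, h6.2]

/-- Continuous with compact support. -/
def Cc (φ : ℂ → ℝ) : Prop := Continuous φ ∧ HasCompactSupport φ

theorem Cc.int {φ : ℂ → ℝ} (h : Cc φ) (m : Measure ℂ) [IsLocallyFiniteMeasure m] :
    Integrable φ m := h.1.integrable_of_hasCompactSupport h.2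

theorem Cc.mul {φ ψ : ℂ → ℝ} (h : Cc φ) (hψ : Continuous ψ) : Cc fun x => φ x * ψ x :=
  ⟨h.1.mul hψ, h.2.mul_right⟩

theorem Cc.abs {φ : ℂ → ℝ} (h : Cc φ) : Cc fun x => |φ x| :=
  ⟨h.1.abs, h.2.comp_left (g := fun t : ℝ => |t|) abs_zero⟩

theorem sph_close (m : Measure ℂ) [IsLocallyFiniteMeasure m] {φ φ' χ : ℂ → ℝ} (hφ : Cc φ)
    (hφ' : Cc φ') (hχ : Cc χ) {η : ℝ} (h : ∀ x, |φ x - φ' x| ≤ η * χ x) :
    |∫ x, φ x ∂m - ∫ x, φ' x ∂m| ≤ η * ∫ x, χ x ∂m := by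
  rw [← integral_sub (hφ.int m) (hφ'.int m), ← integral_const_mul]
  exact abs_integral_le_integral_abs.trans
    (integral_mono ((hφ.int m).sub (hφ'.int m)).abs ((hχ.int m).const_mul η) h)

/-- A radial cutoff. -/
noncomputable def rcut (n : ℕ) (x : ℂ) : ℝ := min 1 (max 0 (n - ‖x‖))

theorem rcut_supp {n : ℕ} {x : ℂ} (h : rcut n x ≠ 0) : x ∈ closedBall (0 : ℂ) n := by
  by_contra hx
  rw [mem_closedBall_zero_iff, not_le] at hx
  exact h (by rw [rcut, max_eq_left (by linarith), min_eq_right zero_le_one])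

theorem cc_rcut (n : ℕ) : Cc (rcut n) :=
  ⟨by unfold rcut; fun_prop, HasCompactSupport.intro (isCompact_closedBall 0 n) fun x hx => by
    by_contra h
    exact hx (rcut_supp h)⟩

theorem rcut_nonneg (n : ℕ) (x : ℂ) : 0 ≤ rcut n x := le_min zero_le_one (le_max_left _ _)

theorem rcut_one {n : ℕ} {x : ℂ} (h : ‖x‖ + 1 ≤ n) : rcut n x = 1 :=
  min_eq_left (le_max_of_le_right (by linarith))

theorem sph_dense0 : ∃ Φ : ℕ × ℕ → ℂ → ℝ, (∀ i, Cc (Φ i)) ∧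
    ∀ φ, Cc φ → ∃ i₀, ∀ η > 0, ∃ i, ∀ x, |φ x - Φ i x| ≤ η * Φ i₀ x := by
  obtain ⟨ψ, hψ⟩ := TopologicalSpace.exists_dense_seq C(ℂ, ℝ)
  let ψ' : ℕ → C(ℂ, ℝ) := fun i => Nat.casesOn i 1 ψ
  refine ⟨fun i x => rcut i.1 x * ψ' i.2 x, fun i => (cc_rcut _).mul (ψ' _).continuous,
    fun φ hφ => ?_⟩
  obtain ⟨R, hR⟩ := hφ.2.isCompact.isBounded.subset_closedBall (0 : ℂ)
  obtain ⟨n, hn⟩ := exists_nat_ge (R + 1)
  refine ⟨(n, 0), fun η hη => ?_⟩
  have hK : CompactSpace (closedBall (0 : ℂ) n) := isCompact_iff_compactSpace.1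
    (isCompact_closedBall 0 n)
  obtain ⟨i, hi⟩ := hψ.exists_mem_open (s := (fun F : C(ℂ, ℝ) => F.restrict (closedBall 0 n)) ⁻¹'
    ball ((⟨φ, hφ.1⟩ : C(ℂ, ℝ)).restrict (closedBall 0 n)) η)
    (isOpen_ball.preimage (ContinuousMap.continuous_restrict _)) ⟨⟨φ, hφ.1⟩, mem_ball_self hη⟩
  refine ⟨(n, i + 1), fun x => ?_⟩
  change |φ x - rcut n x * ψ i x| ≤ η * (rcut n x * 1)
  rw [mul_one]
  by_cases hx : rcut n x = 0
  · have : φ x = 0 := by
      by_contra h1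
      have h2 := mem_closedBall_zero_iff.1 (hR (subset_tsupport _ h1))
      rw [rcut_one (by linarith)] at hx
      exact one_ne_zero hx
    simp [hx, this]
  · have h1 : φ x = rcut n x * φ x := by
      by_cases h2 : φ x = 0
      · rw [h2, mul_zero]
      · have h3 := mem_closedBall_zero_iff.1 (hR (subset_tsupport _ h2))
        rw [rcut_one (by linarith), one_mul]
    have h2 : dist (ψ i x) (φ x) ≤ η :=
      (ContinuousMap.dist_apply_le_dist (⟨x, rcut_supp hx⟩ : closedBall (0 : ℂ) n)).trans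
        (mem_ball.1 hi).le
    rw [Real.dist_eq, abs_sub_comm] at h2
    rw [h1, ← mul_sub, abs_mul, abs_of_nonneg (rcut_nonneg n x), mul_comm]
    exact mul_le_mul_of_nonneg_right h2 (rcut_nonneg n x)

theorem sph_dense : ∃ Φ : ℕ × ℕ → ℂ → ℝ, (∀ i, Cc (Φ i)) ∧
    ∀ (mj : ℕ → Measure ℂ) (m : Measure ℂ), (∀ j, IsLocallyFiniteMeasure (mj j)) →
      IsLocallyFiniteMeasure m →
      (∀ i, Tendsto (fun j => ∫ x, Φ i x ∂(mj j)) atTop (𝓝 (∫ x, Φ i x ∂m))) →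
      ∀ φ, Cc φ → Tendsto (fun j => ∫ x, φ x ∂(mj j)) atTop (𝓝 (∫ x, φ x ∂m)) := by
  obtain ⟨Φ, hΦ, hd⟩ := sph_dense0
  refine ⟨Φ, hΦ, fun mj m hmj hm h φ hφ => ?_⟩
  obtain ⟨i₀, hi⟩ := hd φ hφ
  refine sph_squeeze (h i₀) fun η hη => ?_
  obtain ⟨i, hcl⟩ := hi η hη
  exact ⟨_, _, h i, Eventually.of_forall fun j => sph_close _ hφ (hΦ i) (hΦ i₀) hcl,
    sph_close _ hφ (hΦ i) (hΦ i₀) hcl⟩

/-- Convergence on a countable family gives a vague limit. -/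
theorem sph_riesz : ∃ Φ : ℕ × ℕ → ℂ → ℝ, (∀ i, Cc (Φ i)) ∧
    ∀ mj : ℕ → Measure ℂ, (∀ j, IsLocallyFiniteMeasure (mj j)) →
      (∀ i, ∃ l, Tendsto (fun j => ∫ x, Φ i x ∂(mj j)) atTop (𝓝 l)) →
      ∃ m : Measure ℂ, IsLocallyFiniteMeasure m ∧
        ∀ φ, Cc φ → Tendsto (fun j => ∫ x, φ x ∂(mj j)) atTop (𝓝 (∫ x, φ x ∂m)) := by
  obtain ⟨Φ, hΦ, hd⟩ := sph_dense0
  refine ⟨Φ, hΦ, fun mj hmj h => ?_⟩
  have h1 : ∀ φ, Cc φ → ∃ l, Tendsto (fun j => ∫ x, φ x ∂(mj j)) atTop (𝓝 l) := by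
    intro φ hφ
    obtain ⟨i₀, hi⟩ := hd φ hφ
    obtain ⟨C, hC⟩ := h i₀
    refine cauchySeq_tendsto_of_complete (Metric.cauchySeq_iff'.2 fun ε hε => ?_)
    have hC0 : 0 < |C| + 1 := by positivity
    obtain ⟨i, hcl⟩ := hi (ε / 4 / (|C| + 1)) (by positivity)
    obtain ⟨l, hl⟩ := h i
    have h3 : ε / 4 / (|C| + 1) * (|C| + 1) = ε / 4 := by field_simp
    have h4 : 0 < ε / 4 / (|C| + 1) := by positivity
    have h5 : ∀ᶠ j in atTop, |∫ x, φ x ∂(mj j) - l| < ε / 2 := by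
      filter_upwards [Metric.tendsto_nhds.1 hl (ε / 4) (by positivity),
        hC.eventually_le_const (show C < |C| + 1 by linarith [le_abs_self C])] with j h6 h7
      have h8 := (sph_close (mj j) hφ (hΦ i) (hΦ i₀) hcl).trans
        (mul_le_mul_of_nonneg_left h7 h4.le)
      rw [Real.dist_eq, abs_lt] at h6
      rw [abs_le] at h8
      rw [abs_lt]
      constructor <;> linarith [h6.1, h6.2, h8.1, h8.2]
    obtain ⟨N, hN⟩ := eventually_atTop.1 h5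
    refine ⟨N, fun n hn => ?_⟩
    have h6 := abs_lt.1 (hN n hn)
    have h7 := abs_lt.1 (hN N le_rfl)
    rw [Real.dist_eq, abs_lt]
    constructor <;> linarith [h6.1, h6.2, h7.1, h7.2]
  have hc : ∀ f : CompactlySupportedContinuousMap ℂ ℝ, Cc f :=
    fun f => ⟨f.continuous, f.hasCompactSupport⟩
  choose L hL using fun f : CompactlySupportedContinuousMap ℂ ℝ => h1 f (hc f)
  let Λ : CompactlySupportedContinuousMap ℂ ℝ →ₗ[ℝ] ℝ :=
    { toFun := L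
      map_add' := fun f g => tendsto_nhds_unique (hL (f + g)) (((hL f).add (hL g)).congr
        fun j => (integral_add ((hc f).int _) ((hc g).int _)).symm)
      map_smul' := fun c f => tendsto_nhds_unique (hL (c • f)) (((hL f).const_mul c).congr
        fun j => (integral_const_mul c _).symm) }
  refine ⟨RealRMK.rieszMeasure (PositiveLinearMap.mk₀ Λ fun f hf =>
    ge_of_tendsto' (hL f) fun j => integral_nonneg hf), inferInstance, fun φ hφ => ?_⟩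
  have h2 := RealRMK.integral_rieszMeasure (PositiveLinearMap.mk₀ Λ fun f hf =>
    ge_of_tendsto' (hL f) fun j => integral_nonneg hf) ⟨⟨φ, hφ.1⟩, hφ.2⟩
  exact h2 ▸ hL ⟨⟨φ, hφ.1⟩, hφ.2⟩

/-- Density of the approximate measure. -/
noncomputable def rho (γ c₀ : ℝ) (θ : Test) (ε : ℝ) (k : Dist) (w : ℂ) : ℝ :=
  c₀ * ε ^ (γ ^ 2 / 2) * Real.exp (γ * k (pushT w ε θ))

/-- The approximate measure. -/
noncomputable def am (γ c₀ : ℝ) (θ : Test) (ε : ℝ) (k : Dist) : Measure ℂ :=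
  volume.withDensity fun w => ENNReal.ofReal (rho γ c₀ θ ε k w)

variable {γ c₀ : ℝ} {θ : Test} {R : ℝ}

theorem continuous_rho (ε : ℝ) (k : Dist) : Continuous (rho γ c₀ θ ε k) :=
  continuous_const.mul (Real.continuous_exp.comp
    (continuous_const.mul (continuous_eval_pushT k ε θ)))

instance locFin_am (ε : ℝ) (k : Dist) : IsLocallyFiniteMeasure (am γ c₀ θ ε k) :=
  IsLocallyFiniteMeasure.withDensity_ofReal (continuous_rho ε k)

theorem integral_wd (m : Measure ℂ) {ρ : ℂ → ℝ} (hρ : Continuous ρ) (h0 : ∀ x, 0 ≤ ρ x)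
    (φ : ℂ → ℝ) : ∫ x, φ x ∂(m.withDensity fun x => ENNReal.ofReal (ρ x)) =
      ∫ x, φ x * ρ x ∂m := by
  rw [integral_withDensity_eq_integral_toReal_smul hρ.measurable.ennreal_ofReal
    (ae_of_all _ fun _ => ENNReal.ofReal_lt_top)]
  refine integral_congr_ae (ae_of_all _ fun x => ?_)
  simp only [ENNReal.toReal_ofReal (h0 x), smul_eq_mul, mul_comm]

theorem integral_am (hc : 0 < c₀) {ε : ℝ} (hε : 0 < ε) (k : Dist) (φ : ℂ → ℝ) :
    ∫ x, φ x ∂(am γ c₀ θ ε k) = ∫ x, φ x * rho γ c₀ θ ε k x :=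
  integral_wd _ (continuous_rho ε k) (fun x => by unfold rho; positivity) φ

/-- Vague convergence to `m` along the scales `e`. -/
def Vg (γ c₀ : ℝ) (θ : Test) (e : ℕ → ℝ) (k : Dist) (m : Measure ℂ) : Prop :=
  IsLocallyFiniteMeasure m ∧
    ∀ φ, Cc φ → Tendsto (fun j => ∫ x, φ x ∂(am γ c₀ θ (e j) k)) atTop (𝓝 (∫ x, φ x ∂m))

instance countable_fr : Countable Fr := by
  have h : {p : ℂ × ℂ | IsFr p.1 p.2} ⊆ range fun q : (ℚ × ℚ) × ℚ × ℚ => (qc q.1, qc q.2) := by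
    rintro ⟨z, a⟩ ⟨⟨z1, z2, hz⟩, ⟨a1, a2, ha⟩, -⟩
    exact ⟨((z1, z2), a1, a2), Prod.ext hz.symm ha.symm⟩
  exact ((countable_range _).mono h).to_subtype

theorem exists_vg {Θ : ℝ → ℂ → Test} (hc : 0 < c₀) (hθ : IsMollifier θ Θ) {Ω : Type}
    [MeasurableSpace Ω] {P : Measure Ω} {h : Ω → Dist} {μ : Ω → Measure ℂ}
    (hμ : IsLQGMeasure P h γ c₀ Θ μ) : ∃ e : ℕ → ℝ, (∀ j, 0 < e j) ∧ Tendsto e atTop (𝓝 0) ∧
      ∀ᵐ ω ∂P, ∀ F : Fr, Vg γ c₀ θ (fun j => ‖F.a‖ * e j) (h ω) (μ ω) := by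
  obtain ⟨Φ, hΦ, hd⟩ := sph_dense
  have hs : ∀ F : Fr, Tendsto (fun ε : ℝ => ‖F.a‖ * ε) (𝓝[>] 0) (𝓝[>] 0) := fun F => by
    refine tendsto_nhdsWithin_iff.2 ⟨?_, eventually_mem_nhdsWithin.mono fun ε hε =>
      mul_pos (norm_pos_iff.2 F.a_ne) hε⟩
    simpa using ((tendsto_id (x := 𝓝 (0 : ℝ))).const_mul ‖F.a‖).mono_left nhdsWithin_le_nhds
  obtain ⟨e, he, he0, hae⟩ := sph_diag P (ι := Fr × ℕ × ℕ)
    (fun i ε ω => approx γ c₀ Θ (‖i.1.a‖ * ε) (h ω) (Φ i.2)) (fun i ω => ∫ x, Φ i.2 x ∂(μ ω))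
    fun i => (hμ.lim _ (hΦ _).1 (hΦ _).2).comp (hs i.1)
  refine ⟨e, he, he0, hae.mono fun ω hω F => ⟨hμ.locFin ω,
    hd _ _ (fun _ => inferInstance) (hμ.locFin ω) fun i => ?_⟩⟩
  refine (hω (F, i)).congr fun j => ?_
  have hp : 0 < ‖F.a‖ * e j := mul_pos (norm_pos_iff.2 F.a_ne) (he j)
  rw [integral_am hc hp]
  simp only [approx, rho, mollifier_eq hθ hp]

theorem Vg.add {e : ℕ → ℝ} {k : Dist} {m : Measure ℂ} (h : Vg γ c₀ θ e k m) (hc : 0 < c₀)
    (hR : Mass.Bump θ R) (he : ∀ j, 0 < e j) (he0 : Tendsto e atTop (𝓝 0)) {g : ℂ → ℝ}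
    (hg : Continuous g) :
    Vg γ c₀ θ e (Sm g k) (m.withDensity fun x => ex (γ * g x)) := by
  have := h.1
  have hE : Continuous fun x => Real.exp (γ * g x) := by fun_prop
  refine ⟨IsLocallyFiniteMeasure.withDensity_ofReal hE, fun φ hφ => ?_⟩
  have e1 : ∫ x, φ x ∂(m.withDensity fun x => ex (γ * g x)) =
      ∫ x, φ x * Real.exp (γ * g x) ∂m := integral_wd m hE (fun x => (Real.exp_pos _).le) φ
  have hG : ∀ j, Continuous fun w => Real.exp (γ * ∫ x, g x * pushT w (e j) θ x) := fun j => by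
    have := continuous_eval_pushT (ofFun g) (e j) θ
    simp only [ofFun_apply hg] at this
    fun_prop
  have e2 : ∀ j, ∫ x, φ x ∂(am γ c₀ θ (e j) (Sm g k)) =
      ∫ w, φ w * Real.exp (γ * ∫ x, g x * pushT w (e j) θ x) ∂(am γ c₀ θ (e j) k) := fun j => by
    rw [integral_am hc (he j), integral_am hc (he j)]
    refine integral_congr_ae (ae_of_all _ fun w => ?_)
    simp only [rho, Sm_apply hg, mul_add, Real.exp_add]
    ring
  simp only [e1, e2]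
  refine sph_squeeze (h.2 _ hφ.abs) fun η hη => ⟨_, _, h.2 _ (hφ.mul hE), ?_, by
    rw [sub_self, abs_zero]
    exact mul_nonneg hη.le (integral_nonneg fun x => abs_nonneg _)⟩
  obtain ⟨S, hS⟩ := hφ.2.isCompact.isBounded.subset_closedBall (0 : ℂ)
  obtain ⟨M, hM⟩ := (isCompact_closedBall (0 : ℂ) S).exists_bound_of_continuousOn hg.continuousOn
  obtain ⟨δ₁, hδ₁, h1⟩ := Metric.uniformContinuousOn_iff.1
    ((isCompact_Icc (a := -(M + 1)) (b := M + 1)).uniformContinuousOn_of_continuous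
      (f := fun t => Real.exp (γ * t)) (by fun_prop)) η hη
  obtain ⟨δ₂, hδ₂, h2⟩ := Metric.uniformContinuousOn_iff.1
    ((isCompact_closedBall (0 : ℂ) (S + 1)).uniformContinuousOn_of_continuous hg.continuousOn)
    (min (δ₁ / 2) 1) (by positivity)
  have h3 : Tendsto (fun j => e j * R) atTop (𝓝 0) := by simpa using he0.mul_const R
  filter_upwards [h3.eventually_lt_const (show 0 < min δ₂ 1 by positivity)] with j hj
  refine sph_close _ (hφ.mul (hG j)) (hφ.mul hE) hφ.abs fun w => ?_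
  by_cases hw : φ w = 0
  · simp [hw]
  have hwS := mem_closedBall_zero_iff.1 (hS (subset_tsupport _ hw))
  have hne := Mass.ofReal_ne (he j)
  have hmass := Mass.push_mass hR w hne
  have h4 : |∫ x, (g x - g w) * pushT w (e j) θ x| ≤ min (δ₁ / 2) 1 := by
    refine Mass.avg_abs_le (Mass.push_nonneg hR.nonneg w _) hmass (hg.sub continuous_const)
      fun x hx => ?_
    have h5 := Mass.push_supp hR w hne hx
    rw [Mass.norm_ofReal (he j), mem_closedBall] at h5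
    have h6 : ‖x‖ ≤ dist x w + ‖w‖ := by
      rw [dist_eq_norm]; simpa using norm_add_le (x - w) w
    exact (h2 x (mem_closedBall_zero_iff.2 (by linarith [min_le_right δ₂ 1])) w
      (mem_closedBall_zero_iff.2 (by linarith)) (by linarith [min_le_left δ₂ 1])).le
  have h5 : ∫ x, (g x - g w) * pushT w (e j) θ x = (∫ x, g x * pushT w (e j) θ x) - g w := by
    simp only [sub_mul]
    rw [integral_sub (Test.integrable_mul _ hg) (Test.integrable_mul _ continuous_const),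
      integral_const_mul, hmass, mul_one]
  rw [h5] at h4
  have h6 := abs_le.1 (hM w (mem_closedBall_zero_iff.2 hwS))
  have h7 := abs_le.1 (h4.trans (min_le_right _ _))
  have h8 := h1 (∫ x, g x * pushT w (e j) θ x)
    ⟨by linarith [h6.1, h7.1], by linarith [h6.2, h7.2]⟩ (g w)
    ⟨by linarith [h6.1], by linarith [h6.2]⟩
    (by rw [Real.dist_eq]; linarith [h4.trans (min_le_left _ _)])
  rw [← mul_sub, abs_mul, mul_comm]
  exact mul_le_mul_of_nonneg_right h8.le (abs_nonneg _)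

theorem gam_pos : 0 < gam := Real.sqrt_pos.2 (by norm_num)

theorem Vg.frame {e : ℕ → ℝ} {k : Dist} {m : Measure ℂ} (F : Fr)
    (h : Vg gam c₀ θ (fun j => ‖F.a‖ * e j) k m) (hc : 0 < c₀) (hR : Mass.Bump θ R)
    (he : ∀ j, 0 < e j) : Vg gam c₀ θ e (absF F k) (m.map F.inv) := by
  have := h.1
  have hn : 0 < ‖F.a‖ := norm_pos_iff.2 F.a_ne
  have hfin : IsFiniteMeasureOnCompacts (m.map F.inv) :=
    Measure.IsFiniteMeasureOnCompacts.map m (affH F.z F.a F.a_ne).symm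
  refine ⟨inferInstance, fun φ hφ => ?_⟩
  have hφ' : Cc fun x => φ (F.inv x) :=
    ⟨hφ.1.comp F.continuous_inv, hφ.2.comp_homeomorph (affH F.z F.a F.a_ne).symm⟩
  rw [integral_map F.continuous_inv.aemeasurable hφ.1.aestronglyMeasurable]
  refine (h.2 _ hφ').congr fun j => ?_
  have hp := mul_pos hn (he j)
  rw [integral_am hc hp, integral_am hc (he j)]
  have e1 := integral_comp_unaff F.a_ne F.z
    (fun w => φ w * rho gam c₀ θ (‖F.a‖ * e j) k (F.map w))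
  have e2 : ∀ x, F.map (unaff F.z F.a x) = x := F.map_inv
  simp only [e2] at e1
  refine e1.trans ?_
  rw [← integral_const_mul]
  refine integral_congr_ae (ae_of_all _ fun w => ?_)
  have e3 : pushT F.z F.a (pushT w (e j) θ) = pushT (F.map w) ((‖F.a‖ * e j : ℝ) : ℂ) θ := by
    rw [pushT_pushT F.a_ne (Mass.ofReal_ne (he j))]
    exact Mass.push_radial hR.radial _
      (by rw [norm_mul, Mass.norm_ofReal (he j), Mass.norm_ofReal hp])
  have e4 : Real.exp (gam * (QQ * Real.log ‖F.a‖)) = ‖F.a‖ ^ 2 * ‖F.a‖ ^ (gam ^ 2 / 2) := by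
    rw [← Real.rpow_two, ← Real.rpow_add hn, Real.rpow_def_of_pos hn]
    congr 1
    have := gam_pos.ne'
    unfold QQ
    field_simp
  simp only [rho, absF_apply, Mass.push_mass hR w (Mass.ofReal_ne (he j)), e3, mul_one, mul_add,
    Real.exp_add, e4, Real.mul_rpow hn.le (he j).le]
  ring

end Pool.Agent.QL.Sp
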