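import Pool.Agent.P.MP_7a6434d8_pr.QL.Sph.Vague
import Pool.Agent.P.MP_ca04ec_pr.G.Mo1

/-! Block G6: masses of open sets as local functions of the field. -/

open MeasureTheory ProbabilityTheory Set Filter Topology Metric
open scoped ENNReal

namespace Pool.Agent.QL.Sp

open Pool.Agent.LGD

/-- Compactly supported approximation of the indicator of an open set. -/
noncomputable def cut (V : Set ℂ) (n : ℕ) (x : ℂ) : ℝ := rcut n x * Mass.tf V n x

theorem cc_cut (V : Set ℂ) (n : ℕ) : Cc (cut V n) := (cc_rcut n).mul (Mass.tf_cont V n)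

theorem cut_nonneg (V : Set ℂ) (n : ℕ) (x : ℂ) : 0 ≤ cut V n x :=
  mul_nonneg (rcut_nonneg n x) (Mass.tf_nonneg V n x)

theorem cut_le (V : Set ℂ) (n : ℕ) (x : ℂ) : cut V n x ≤ 1 :=
  mul_le_one₀ (min_le_left _ _) (Mass.tf_nonneg V n x) (Mass.tf_le V n x)

theorem cut_mono (V : Set ℂ) (x : ℂ) : Monotone fun n => cut V n x := fun _ _ h =>
  mul_le_mul (min_le_min le_rfl (max_le_max le_rfl (sub_le_sub_right (by exact_mod_cast h) _)))
    (Mass.tf_mono V x h) (Mass.tf_nonneg _ _ _) (rcut_nonneg _ _)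

theorem cut_zero (V : Set ℂ) (x : ℂ) : cut V 0 x = 0 := by
  simp [cut, Mass.tf]

theorem cut_ne {V : Set ℂ} {n : ℕ} {x : ℂ} (h : cut V n x ≠ 0) : Mass.tf V n x ≠ 0 :=
  right_ne_zero_of_mul h

theorem tsupport_cut (V : Set ℂ) (n : ℕ) : tsupport (cut V n) ⊆ V := fun x hx => by
  obtain ⟨w, hw, hd⟩ := Metric.mem_closure_iff.1 hx (1 / ((n : ℝ) + 1)) Nat.one_div_pos_of_nat
  refine Mass.tf_ball (cut_ne hw) (ρ := 1 / ((n : ℝ) + 1)) ?_ hd.le
  rw [mul_one_div, div_le_one (by positivity)]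
  linarith

theorem cut_ev_one {V K : Set ℂ} (hV : IsOpen V) (hne : Vᶜ.Nonempty) (hK : IsCompact K)
    (hKV : K ⊆ V) : ∀ᶠ n in atTop, ∀ x ∈ K, cut V n x = 1 := by
  rcases K.eq_empty_or_nonempty with rfl | hK'
  · simp
  obtain ⟨z, hz, hmin⟩ := hK.exists_isMinOn hK' (continuous_infDist_pt Vᶜ).continuousOn
  have hd : 0 < infDist z Vᶜ := (hV.isClosed_compl.notMem_iff_infDist_pos hne).1 fun h => h (hKV hz)
  obtain ⟨S, hS⟩ := hK.isBounded.subset_closedBall (0 : ℂ)
  filter_upwards [tendsto_natCast_atTop_atTop.eventually_ge_atTop (S + 1),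
    tendsto_natCast_atTop_atTop.eventually_ge_atTop (2 / infDist z Vᶜ)] with n h1 h2 x hx
  rw [div_le_iff₀ hd] at h2
  have h3 : infDist z Vᶜ ≤ infDist x Vᶜ := hmin hx
  have h4 := mul_le_mul_of_nonneg_left h3 (Nat.cast_nonneg (α := ℝ) n)
  rw [cut, rcut_one (by linarith [mem_closedBall_zero_iff.1 (hS hx)]), one_mul, Mass.tf,
    min_eq_left (le_max_of_le_right (by linarith))]

theorem cc_cut_mul {V : Set ℂ} (hV : IsOpen V) {w : ℂ → ℝ} (hw : ContinuousOn w V) (n : ℕ) :
    Cc fun x => cut V n x * w x :=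
  ⟨((cc_cut V n).1.continuousOn.mul hw).continuous_of_tsupport_subset hV
    ((tsupport_mul_subset_left (f := cut V n)).trans (tsupport_cut V n)),
    (cc_cut V n).2.mul_right⟩

theorem lint_cut_sup (m : Measure ℂ) [IsLocallyFiniteMeasure m] {V : Set ℂ} (hV : IsOpen V)
    (hne : Vᶜ.Nonempty) {w : ℂ → ℝ} (hw : ContinuousOn w V) (h0 : ∀ x, 0 ≤ w x) :
    ⨆ n, ∫⁻ x, ENNReal.ofReal (cut V n x * w x) ∂m = ∫⁻ x in V, ENNReal.ofReal (w x) ∂m := by
  rw [← lintegral_iSup (fun n => (cc_cut_mul hV hw n).1.measurable.ennreal_ofReal)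
    (fun n l h x => ENNReal.ofReal_le_ofReal (mul_le_mul_of_nonneg_right (cut_mono V x h) (h0 x))),
    ← lintegral_indicator hV.measurableSet]
  refine lintegral_congr fun x => ?_
  by_cases hx : x ∈ V
  · rw [indicator_of_mem hx]
    refine le_antisymm (iSup_le fun n => ENNReal.ofReal_le_ofReal
      (mul_le_of_le_one_left (h0 x) (cut_le V n x))) ?_
    obtain ⟨n, hn⟩ := (cut_ev_one hV hne isCompact_singleton (singleton_subset_iff.2 hx)).exists
    exact le_iSup_of_le n (by rw [hn x rfl, one_mul])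
  · rw [indicator_of_notMem hx]
    have : ∀ n, cut V n x = 0 := fun n =>
      image_eq_zero_of_notMem_tsupport fun h => hx (tsupport_cut V n h)
    simp [this]

theorem lint_cut_sup' (m : Measure ℂ) {V : Set ℂ} (hV : IsOpen V) (hne : Vᶜ.Nonempty) :
    ⨆ n, ∫⁻ x, ENNReal.ofReal (cut V n x) ∂m = m V := by
  rw [← lintegral_iSup (fun n => (cc_cut V n).1.measurable.ennreal_ofReal)
    (fun n l h x => ENNReal.ofReal_le_ofReal (cut_mono V x h)),
    ← lintegral_indicator_one hV.measurableSet]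
  refine lintegral_congr fun x => ?_
  by_cases hx : x ∈ V
  · rw [indicator_of_mem hx]
    refine le_antisymm (iSup_le fun n => ENNReal.ofReal_le_one.2 (cut_le V n x)) ?_
    obtain ⟨n, hn⟩ := (cut_ev_one hV hne isCompact_singleton (singleton_subset_iff.2 hx)).exists
    exact le_iSup_of_le n (by rw [hn x rfl]; simp)
  · rw [indicator_of_notMem hx]
    have : ∀ n, cut V n x = 0 := fun n =>
      image_eq_zero_of_notMem_tsupport fun h => hx (tsupport_cut V n h)
    simp [this]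

theorem Cc.ofReal_int {φ : ℂ → ℝ} (h : Cc φ) (h0 : ∀ x, 0 ≤ φ x) (m : Measure ℂ)
    [IsLocallyFiniteMeasure m] :
    ENNReal.ofReal (∫ x, φ x ∂m) = ∫⁻ x, ENNReal.ofReal (φ x) ∂m :=
  ofReal_integral_eq_lintegral_ofReal (h.int m) (ae_of_all _ h0)

/-- The integral of `w` over `V` against the limit measure. -/
noncomputable def zz (γ c₀ : ℝ) (θ : Test) (e : ℕ → ℝ) (w : ℂ → ℝ) (V : Set ℂ) (k : Dist) :
    ℝ≥0∞ :=
  ⨆ n, liminf (fun j => ENNReal.ofReal (∫ x, cut V n x * w x ∂(am γ c₀ θ (e j) k))) atTop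

variable {γ c₀ : ℝ} {θ : Test} {R : ℝ} {e : ℕ → ℝ}

theorem Vg.zz_eq {k : Dist} {m : Measure ℂ} (h : Vg γ c₀ θ e k m) {V : Set ℂ} (hV : IsOpen V)
    (hne : Vᶜ.Nonempty) {w : ℂ → ℝ} (hw : ContinuousOn w V) (h0 : ∀ x, 0 ≤ w x) :
    zz γ c₀ θ e w V k = ∫⁻ x in V, ENNReal.ofReal (w x) ∂m := by
  have := h.1
  rw [← lint_cut_sup m hV hne hw h0]
  refine iSup_congr fun n => ?_
  rw [← (cc_cut_mul hV hw n).ofReal_int fun x => mul_nonneg (cut_nonneg V n x) (h0 x)]
  exact (ENNReal.tendsto_ofReal (h.2 _ (cc_cut_mul hV hw n))).liminf_eq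

theorem Vg.zz_one {k : Dist} {m : Measure ℂ} (h : Vg γ c₀ θ e k m) {V : Set ℂ} (hV : IsOpen V)
    (hne : Vᶜ.Nonempty) : zz γ c₀ θ e (fun _ => 1) V k = m V := by
  rw [h.zz_eq hV hne continuousOn_const fun _ => zero_le_one]
  simp

theorem meas_am (hc : 0 < c₀) {M : MeasurableSpace Dist} {ε : ℝ} (hε : 0 < ε) {φ : ℂ → ℝ}
    (hφ : Continuous φ) (h : ∀ w, φ w ≠ 0 → Measurable[M] fun k : Dist => k (pushT w ε θ)) :
    Measurable[M] fun k => ∫ x, φ x ∂(am γ c₀ θ ε k) := by
  have h1 : Measurable (Function.uncurry fun (w : ℂ) (k : Dist) => φ w * rho γ c₀ θ ε k w) := by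
    refine measurable_uncurry_of_continuous_of_measurable (m := M)
      (fun k => hφ.mul (continuous_rho ε k)) fun w => ?_
    by_cases hw : φ w = 0
    · simp only [hw, zero_mul]; exact measurable_const
    · exact ((Real.measurable_exp.comp ((h w hw).const_mul γ)).const_mul _).const_mul _
  simp only [integral_am hc hε]
  exact (h1.stronglyMeasurable.integral_prod_left' (μ := (volume : Measure ℂ))).measurable

theorem meas_tail (hc : 0 < c₀) (hR : Mass.Bump θ R) (he : ∀ j, 0 < e j)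
    (he0 : Tendsto e atTop (𝓝 0)) (V : Set ℂ) (n : ℕ) : ∃ J : ℕ, ∀ φ : ℂ → ℝ, Continuous φ →
      (∀ w, φ w ≠ 0 → Mass.tf V n w ≠ 0) → ∀ j,
      Measurable[fieldSigma id V] fun k => ∫ x, φ x ∂(am γ c₀ θ (e (j + J)) k) := by
  have h2 : Tendsto (fun j => n * (e j * R)) atTop (𝓝 (n * (0 * R))) :=
    (he0.mul_const R).const_mul _
  obtain ⟨J, hJ⟩ := eventually_atTop.1 (h2.eventually_le_const (show _ < (1 : ℝ) by simp))
  refine ⟨J, fun φ hφ h j => meas_am hc (he _) hφ fun w hw => loc_eval ?_⟩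
  have h3 := Mass.push_supp hR w (Mass.ofReal_ne (he (j + J)))
  rw [Mass.norm_ofReal (he _)] at h3
  exact h3.trans (Mass.tf_ball (h w hw) (hJ _ (Nat.le_add_left J j)))

theorem zz_loc (hc : 0 < c₀) (hR : Mass.Bump θ R) (he : ∀ j, 0 < e j)
    (he0 : Tendsto e atTop (𝓝 0)) {w : ℂ → ℝ} {V : Set ℂ}
    (hw : ∀ n, Continuous fun x => cut V n x * w x) :
    Measurable[fieldSigma id V] (zz γ c₀ θ e w V) := by
  refine Measurable.iSup fun n => ?_
  obtain ⟨J, hJ⟩ := meas_tail (γ := γ) hc hR he he0 V n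
  have : (fun k => liminf (fun j => ENNReal.ofReal (∫ x, cut V n x * w x ∂(am γ c₀ θ (e j) k)))
      atTop) = fun k => liminf (fun j => ENNReal.ofReal
        (∫ x, cut V n x * w x ∂(am γ c₀ θ (e (j + J)) k))) atTop := funext fun k =>
    (liminf_nat_add (fun j => ENNReal.ofReal (∫ x, cut V n x * w x ∂(am γ c₀ θ (e j) k))) J).symm
  rw [this]
  exact Measurable.liminf fun j =>
    (hJ _ (hw n) (fun x hx => cut_ne (left_ne_zero_of_mul hx)) j).ennreal_ofReal

theorem zz_loc1 (hc : 0 < c₀) (hR : Mass.Bump θ R) (he : ∀ j, 0 < e j)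
    (he0 : Tendsto e atTop (𝓝 0)) (V : Set ℂ) :
    Measurable[fieldSigma id V] (zz γ c₀ θ e (fun _ => 1) V) :=
  zz_loc hc hR he he0 fun n => (cc_cut V n).1.mul continuous_const

theorem zz_moment {ν : Measure Dist} (hν : IsCanon ν) (hc : 0 < c₀) (hR : Mass.Bump θ R)
    (he : ∀ j, 0 < e j) (he0 : Tendsto e atTop (𝓝 0)) (R₀ : ℝ) : ∃ C : ℝ≥0∞, C ≠ ⊤ ∧
    ∀ A : Set ℂ, MeasurableSet A → A ⊆ ball 0 R₀ →
      ∫⁻ k, zz γ c₀ θ e (fun _ => 1) A k ∂ν ≤ C * volume A := by
  have := hν.prob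
  obtain ⟨C, -, hC⟩ := mom_diag (θ := θ) ⟨hR.nonneg, hR.mass⟩ R₀
  refine ⟨ex (Real.log c₀ + γ ^ 2 / 2 * C), ENNReal.ofReal_ne_top, fun A hA hA0 => ?_⟩
  have hm : ∀ n j, Measurable fun k =>
      ENNReal.ofReal (∫ x, cut A n x * 1 ∂(am γ c₀ θ (e j) k)) := fun n j =>
    (meas_am hc (he j) ((cc_cut A n).1.mul continuous_const)
      fun w _ => measurable_eval _).ennreal_ofReal
  unfold zz
  rw [lintegral_iSup (fun n => Measurable.liminf (hm n)) fun n l h k =>
    liminf_le_liminf (Eventually.of_forall fun j => ENNReal.ofReal_le_ofReal (integral_mono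
      (((cc_cut A n).mul continuous_const).int _) (((cc_cut A l).mul continuous_const).int _)
      fun x => mul_le_mul_of_nonneg_right (cut_mono A x h) zero_le_one))]
  refine iSup_le fun n => (lintegral_liminf_le (hm n)).trans
    (liminf_le_of_frequently_le' (Eventually.frequently ?_))
  filter_upwards [he0.eventually_le_const zero_lt_one] with j hj
  have hd : Measurable fun p : Dist × ℂ => ENNReal.ofReal (rho γ c₀ θ (e j) p.1 p.2) :=
    (measurable_dens γ c₀ θ (e j)).ennreal_ofReal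
  calc _ ≤ ∫⁻ k, ∫⁻ x in A, ENNReal.ofReal (rho γ c₀ θ (e j) k x) ∂volume ∂ν := by
        refine lintegral_mono fun k => ?_
        simp only [mul_one]
        rw [(cc_cut A n).ofReal_int (cut_nonneg A n), ← withDensity_apply _ hA,
          ← lintegral_indicator_one hA]
        refine lintegral_mono fun x => ?_
        by_cases hx : x ∈ A
        · rw [indicator_of_mem hx]
          exact ENNReal.ofReal_le_one.2 (cut_le A n x)
        · rw [image_eq_zero_of_notMem_tsupport fun h => hx (tsupport_cut A n h)]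
          simp
    _ ≤ _ := by
        rw [lintegral_lintegral_swap hd.aemeasurable, ← setLIntegral_const]
        refine setLIntegral_mono' hA fun x hx => ?_
        refine (hν.lintegral_dens hc (he j) x).le.trans (Mass.ex_mono ?_)
        have h1 := (abs_le.1 (hC x (e j) (mem_ball_zero_iff.1 (hA0 hx)).le (he j) hj)).2
        nlinarith [sq_nonneg γ]

theorem cond_ext {m m' : Measure ℂ} {U : Set ℂ} (hU : IsOpen U) (h0 : m U ≠ 0) (h1 : m U ≠ ⊤)
    (h : ∀ V, IsOpen V → V ⊆ U → m V = m' V) :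
    ProbabilityTheory.cond m U = ProbabilityTheory.cond m' U := by
  have := cond_isProbabilityMeasure_of_finite h0 h1
  have e := h U hU subset_rfl
  have := cond_isProbabilityMeasure_of_finite (e ▸ h0) (e ▸ h1)
  refine ext_of_generate_finite _ BorelSpace.measurable_eq isPiSystem_isOpen
    (fun V hV => ?_) (by simp)
  rw [cond_apply hU.measurableSet, cond_apply hU.measurableSet, e,
    h _ (hU.inter hV) inter_subset_left]

/-- The normalised measure on `U` as a local kernel. -/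
theorem exists_jk (hc : 0 < c₀) (hR : Mass.Bump θ R) (he : ∀ j, 0 < e j)
    (he0 : Tendsto e atTop (𝓝 0)) {U : Set ℂ} (hU : IsOpen U) (hne : Uᶜ.Nonempty) :
    ∃ jk : Dist → Measure ℂ, (∀ k, IsProbabilityMeasure (jk k)) ∧
      Measurable[fieldSigma id U] jk ∧ ∀ k m, Vg γ c₀ θ e k m → m U ≠ 0 → m U ≠ ⊤ →
        jk k = ProbabilityTheory.cond m U := by
  classical
  obtain ⟨Φ, hΦ, hr⟩ := sph_riesz
  set δ : ℕ → ℂ → ℝ := fun n x => cut U (n + 1) x - cut U n x with hδ
  have hδc : ∀ n, Continuous (δ n) := fun n => (cc_cut U _).1.sub (cc_cut U _).1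
  have hδ0 : ∀ n x, 0 ≤ δ n x := fun n x => sub_nonneg.2 (cut_mono U x (Nat.le_succ n))
  set G : Set Dist := {k | (∀ n i, ∃ l, Tendsto (fun j => ∫ x, Φ i x * δ n x ∂(am γ c₀ θ (e j) k))
    atTop (𝓝 l)) ∧ zz γ c₀ θ e (fun _ => 1) U k ≠ 0 ∧ zz γ c₀ θ e (fun _ => 1) U k ≠ ⊤} with hG
  have hz := zz_loc1 (γ := γ) hc hR he he0 U
  have hGm : MeasurableSet[fieldSigma id U] G := by
    refine MeasurableSet.inter ?_ ((hz (measurableSet_singleton 0)).compl.inter
      (hz (measurableSet_singleton ⊤)).compl)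
    change MeasurableSet[fieldSigma id U] {k | ∀ n i, ∃ l, _}
    simp only [setOf_forall]
    refine MeasurableSet.iInter fun n => MeasurableSet.iInter fun i => ?_
    obtain ⟨J, hJ⟩ := meas_tail (γ := γ) hc hR he he0 U (n + 1)
    have h0 := hJ (fun x => Φ i x * δ n x)
      ((hΦ i).1.mul (hδc n)) fun w hw => cut_ne fun h0 => right_ne_zero_of_mul hw
        (le_antisymm (by simp only [hδ, h0]; linarith [cut_nonneg U n w]) (hδ0 n w))
    letI : MeasurableSpace Dist := fieldSigma id U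
    have h1 := measurableSet_exists_tendsto (l := atTop) h0
    convert h1 using 3 with k
    exact exists_congr fun l => (tendsto_add_atTop_iff_nat
      (f := fun j => ∫ x, Φ i x * δ n x ∂(am γ c₀ θ (e j) k)) J).symm
  have hex : ∀ k ∈ G, ∃ m : Measure ℂ, ∀ V, IsOpen V → V ⊆ U →
      m V = zz γ c₀ θ e (fun _ => 1) V k := by
    intro k hk
    have h1 : ∀ n, ∃ M : Measure ℂ, IsLocallyFiniteMeasure M ∧ ∀ φ, Cc φ →
        Tendsto (fun j => ∫ x, φ x * δ n x ∂(am γ c₀ θ (e j) k)) atTop (𝓝 (∫ x, φ x ∂M)) := by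
      intro n
      simpa only [integral_wd _ (hδc n) (hδ0 n)] using
        hr (fun j => (am γ c₀ θ (e j) k).withDensity fun x => ENNReal.ofReal (δ n x))
          (fun j => IsLocallyFiniteMeasure.withDensity_ofReal (hδc n))
          (by simpa only [integral_wd _ (hδc n) (hδ0 n)] using hk.1 n)
    choose M hM hM' using h1
    refine ⟨Measure.sum M, fun V hV hVU => ?_⟩
    rw [← lint_cut_sup' _ hV (hne.mono (compl_subset_compl.2 hVU))]
    refine iSup_congr fun l => ?_
    obtain ⟨N, hN⟩ := eventually_atTop.1 (cut_ev_one hU hne (cc_cut V l).2.isCompact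
      ((tsupport_cut V l).trans hVU))
    have h2 : ∀ n, N ≤ n → ∀ x, cut V l x * δ n x = 0 := fun n hn x => by
      by_cases hx : cut V l x = 0
      · rw [hx, zero_mul]
      · simp only [hδ, hN n hn x (subset_tsupport _ hx),
          hN (n + 1) (by omega) x (subset_tsupport _ hx), sub_self, mul_zero]
    have h3 : ∀ x, cut V l x * 1 = ∑ n ∈ Finset.range N, cut V l x * δ n x := fun x => by
      rw [← Finset.mul_sum, Finset.sum_range_sub (fun n => cut U n x), cut_zero, sub_zero]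
      by_cases hx : cut V l x = 0
      · rw [hx, zero_mul, zero_mul]
      · rw [hN N le_rfl x (subset_tsupport _ hx)]
    have h4 : Tendsto (fun j => ∫ x, cut V l x * 1 ∂(am γ c₀ θ (e j) k)) atTop
        (𝓝 (∑ n ∈ Finset.range N, ∫ x, cut V l x ∂(M n))) := by
      refine (tendsto_finset_sum _ fun n _ => hM' n _ (cc_cut V l)).congr fun j => ?_
      simp only [h3]
      exact (integral_finset_sum _ fun n _ => ((cc_cut V l).mul (hδc n)).int _).symm
    rw [(ENNReal.tendsto_ofReal h4).liminf_eq, lintegral_sum_measure,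
      ENNReal.ofReal_sum_of_nonneg fun n _ => integral_nonneg (cut_nonneg V l),
      tsum_eq_sum (s := Finset.range N) fun n hn => ?_]
    · exact Finset.sum_congr rfl fun n _ => ((cc_cut V l).ofReal_int (cut_nonneg V l) _).symm
    · have h5 := hM' n _ (cc_cut V l)
      simp only [h2 n (not_lt.1 (mt Finset.mem_range.2 hn)), integral_zero] at h5
      rw [← (cc_cut V l).ofReal_int (cut_nonneg V l), ← tendsto_nhds_unique tendsto_const_nhds h5,
        ENNReal.ofReal_zero]
  choose! m hm using hex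
  have hp : ∀ k, IsProbabilityMeasure
      (if k ∈ G then ProbabilityTheory.cond (m k) U else Measure.dirac 0) := fun k => by
    split_ifs with hk
    · have e1 := hm k hk U hU subset_rfl
      exact cond_isProbabilityMeasure_of_finite (e1 ▸ hk.2.1) (e1 ▸ hk.2.2)
    · infer_instance
  refine ⟨fun k => if k ∈ G then ProbabilityTheory.cond (m k) U else Measure.dirac 0, hp, ?_,
    fun k m' hk h0 h1 => ?_⟩
  · refine @Measurable.measure_of_isPiSystem_of_isProbabilityMeasure _ _ (fieldSigma id U) _ _ hp _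
      BorelSpace.measurable_eq isPiSystem_isOpen fun V hV => ?_
    have h1 : Measurable[fieldSigma id U] fun k => if k ∈ G then
        (zz γ c₀ θ e (fun _ => 1) U k)⁻¹ * zz γ c₀ θ e (fun _ => 1) (U ∩ V) k
        else Measure.dirac (0 : ℂ) V :=
      Measurable.ite hGm (hz.inv.mul ((zz_loc1 hc hR he he0 (U ∩ V)).mono
        (field_mono inter_subset_left) le_rfl)) measurable_const
    convert h1 using 2 with k
    split_ifs with hk
    · rw [cond_apply hU.measurableSet, hm k hk U hU subset_rfl,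
        hm k hk _ (hU.inter hV) inter_subset_left]
    · rfl
  · have e1 := hk.zz_one hU hne
    have hkG : k ∈ G := ⟨fun n i => ⟨_, hk.2 _ ((hΦ i).mul (hδc n))⟩, e1 ▸ h0, e1 ▸ h1⟩
    simp only [hkG, if_true]
    refine (cond_ext hU h0 h1 fun V hV hVU => ?_).symm
    rw [hm k hkG V hV hVU, hk.zz_one hV (hne.mono (compl_subset_compl.2 hVU))]

end Pool.Agent.QL.Sp
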